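import Pool.Agent.Q107.PP.Stmts

set_option autoImplicit false

namespace Pool.Agent.PP107

open Finset
open Pool.Agent.Q107.PP

lemma lift_eq (s : Multiset ℕ) : (do let a ← s; pure (a : ℤ) : Multiset ℤ) =
    Multiset.map (fun a : ℕ => (a : ℤ)) s := by
  simp only [Multiset.pure_def, Multiset.bind_def, Multiset.bind_singleton]

/-- the weight of a part -/
def w (a : ℕ) : ℤ := if Odd a then (a : ℤ) else -(a : ℤ)

lemma DS_eq (n : ℕ) : DS n = ∑ p ∈ Nat.Partition.distincts n, (p.parts.map w).sum := by
  unfold DS
  refine Finset.sum_congr rfl fun p _ => ?_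
  rw [lift_eq, Multiset.map_map]
  congr 1
  refine Multiset.map_congr rfl fun a _ => ?_
  unfold w
  simp only [Function.comp, Int.odd_coe_nat]

end Pool.Agent.PP107
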