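import Pool.Agent.Q107.PP.Stmts

/-!
# Dissection of double theta series by a lattice map
-/

set_option autoImplicit false

namespace Pool.Agent.PP107.Lat

open Finset PowerSeries Filter Topology
open scoped PowerSeries.WithPiTopology
open Pool.Agent.Q107.OD

theorem hasSum_coeff {ι : Type*} (e : ι → ℕ) (c : ι → ℤ) {f : ℤ⟦X⟧}
    (h : HasSum (fun i => (monomial (e i) (c i) : ℤ⟦X⟧)) f) (N : ℕ) :
    HasSum (fun i => if N = e i then c i else 0) (coeff N f) := by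
  have := h.map (coeff N) (WithPiTopology.continuous_coeff ℤ N)
  simpa only [Function.comp_def, coeff_monomial] using this

theorem ind {α γ : Type*} (g : γ → ℤ) (m : α → γ) (h : Function.Injective m) {a : ℤ}
    (s : HasSum (fun x => g (m x)) a) : HasSum ((Set.range m).indicator g) a := by
  rw [← h.hasSum_iff]
  · convert s using 1
    funext x
    simp [Set.indicator]
  · intro x hx
    simp [Set.indicator, hx]

theorem lattice {α β γ : Type*} (g : γ → ℤ) (m1 m2 : α → γ) (m3 : β → γ)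
    (h1 : Function.Injective m1) (h2 : Function.Injective m2) (h3 : Function.Injective m3)
    (hr : ∀ p, g p ≠ 0 → p ∈ Set.range m1 ∨ p ∈ Set.range m2)
    (h12 : ∀ p, p ∈ Set.range m3 ↔ p ∈ Set.range m1 ∧ p ∈ Set.range m2)
    {a1 a2 a3 : ℤ} (s1 : HasSum (fun x => g (m1 x)) a1) (s2 : HasSum (fun x => g (m2 x)) a2)
    (s3 : HasSum (fun x => g (m3 x)) a3) :
    HasSum g (a1 + a2 - a3) := by
  classical
  have k := ((ind g m1 h1 s1).add (ind g m2 h2 s2)).sub (ind g m3 h3 s3)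
  have e : g = fun b => (Set.range m1).indicator g b + (Set.range m2).indicator g b -
      (Set.range m3).indicator g b := by
    funext p
    have e1 := hr p
    have e2 := h12 p
    simp only [Set.indicator]
    by_cases c1 : p ∈ Set.range m1 <;> by_cases c2 : p ∈ Set.range m2 <;>
      simp only [c1, c2, e2, and_self, and_true, and_false, false_and, true_and, if_true, if_false,
        or_false, imp_false, not_not] at e1 ⊢ <;> first | linarith | simp_all
  rw [e]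
  exact k

/-- exponent -/
def ex (p : ℤ × ℤ) : ℕ := pentagonal (-p.1) + p.2.natAbs ^ 2

/-- the other exponent -/
def ey (p : ℤ × ℤ) : ℕ := tri p.1 + 2 * pentagonal p.2

def m1 (p : ℤ × ℤ) : ℤ × ℤ := (p.1 + 2 * p.2, p.1 + 1 - 3 * p.2)
def m2 (p : ℤ × ℤ) : ℤ × ℤ := (p.1 + 2 * p.2, -(p.1 + 1 - 3 * p.2))
def m3 (p : ℤ × ℤ) : ℤ × ℤ := (-(5 * p.1 + 1), 5 * p.2)

theorem two_ex (p : ℤ × ℤ) : 2 * (ex p : ℤ) = p.1 * (3 * p.1 + 1) + 2 * p.2 ^ 2 := by
  unfold ex
  have h2 := two_mul_natCast_pentagonal_neg p.1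
  have h4 : ((p.2.natAbs ^ 2 : ℕ) : ℤ) = p.2 ^ 2 := by
    rw [Nat.cast_pow, Int.natCast_natAbs, sq_abs]
  rw [Nat.cast_add, h4, mul_add, h2]

theorem two_ey (p : ℤ × ℤ) : 2 * (ey p : ℤ) = p.1 * (p.1 + 1) + 2 * (p.2 * (3 * p.2 - 1)) := by
  unfold ey
  have h1 := two_tri p.1
  have h2 := two_mul_natCast_pentagonal p.2
  push_cast
  rw [mul_add, h1, ← h2]

theorem ex_m1 (p : ℤ × ℤ) : ex (m1 p) = 5 * ey p + 1 := by
  have h1 := two_ex (m1 p)
  have h2 := two_ey p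
  have : (2 * ex (m1 p) : ℤ) = 2 * ((5 * ey p + 1 : ℕ) : ℤ) := by
    rw [h1]
    push_cast
    simp only [m1]
    linear_combination (-5) * h2
  omega

theorem ex_m2 (p : ℤ × ℤ) : ex (m2 p) = 5 * ey p + 1 := by
  have h1 := two_ex (m2 p)
  have h2 := two_ey p
  have : (2 * ex (m2 p) : ℤ) = 2 * ((5 * ey p + 1 : ℕ) : ℤ) := by
    rw [h1]
    push_cast
    simp only [m2]
    linear_combination (-5) * h2
  omega

theorem ex_m3 (p : ℤ × ℤ) : ex (m3 p) = 25 * ex p + 1 := by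
  have h1 := two_ex (m3 p)
  have h2 := two_ex p
  have : (2 * ex (m3 p) : ℤ) = 2 * ((25 * ex p + 1 : ℕ) : ℤ) := by
    rw [h1]
    push_cast
    simp only [m3]
    linear_combination (-25) * h2
  omega

theorem inj1 : Function.Injective m1 := by
  rintro ⟨a, b⟩ ⟨c, d⟩ h
  simp only [m1, Prod.mk.injEq] at h ⊢
  omega

theorem inj2 : Function.Injective m2 := by
  rintro ⟨a, b⟩ ⟨c, d⟩ h
  simp only [m2, Prod.mk.injEq] at h ⊢
  omega

theorem inj3 : Function.Injective m3 := by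
  rintro ⟨a, b⟩ ⟨c, d⟩ h
  simp only [m3, Prod.mk.injEq] at h ⊢
  omega

theorem mem1 (p : ℤ × ℤ) : p ∈ Set.range m1 ↔ (p.1 - p.2 + 1) % 5 = 0 := by
  constructor
  · rintro ⟨q, rfl⟩
    simp only [m1]
    omega
  · intro h
    obtain ⟨k, hk⟩ : ∃ k, p.1 - p.2 + 1 = 5 * k := ⟨(p.1 - p.2 + 1) / 5, by omega⟩
    refine ⟨(p.1 - 2 * k, k), ?_⟩
    ext <;> simp only [m1] <;> omega

theorem mem2 (p : ℤ × ℤ) : p ∈ Set.range m2 ↔ (p.1 + p.2 + 1) % 5 = 0 := by
  constructor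
  · rintro ⟨q, rfl⟩
    simp only [m2]
    omega
  · intro h
    obtain ⟨k, hk⟩ : ∃ k, p.1 + p.2 + 1 = 5 * k := ⟨(p.1 + p.2 + 1) / 5, by omega⟩
    refine ⟨(p.1 - 2 * k, k), ?_⟩
    ext <;> simp only [m2] <;> omega

theorem mem3 (p : ℤ × ℤ) : p ∈ Set.range m3 ↔ (p.1 + 1) % 5 = 0 ∧ p.2 % 5 = 0 := by
  constructor
  · rintro ⟨q, rfl⟩
    simp only [m3]
    omega
  · rintro ⟨h, h'⟩
    refine ⟨((-p.1 - 1) / 5, p.2 / 5), ?_⟩
    ext <;> simp only [m3] <;> omega

theorem cover (p : ℤ × ℤ) (n : ℕ) (h : 5 * n + 1 = ex p) :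
    p ∈ Set.range m1 ∨ p ∈ Set.range m2 := by
  rw [mem1, mem2]
  have h1 := two_ex p
  rw [← h] at h1
  push_cast at h1
  have h2 : 2 * ((p.1 - p.2 + 1) * (p.1 + p.2 + 1)) = 5 * (p.1 ^ 2 + p.1 - 2 * n) := by
    linear_combination h1
  have h3 : (5 : ℤ) ∣ (p.1 - p.2 + 1) * (p.1 + p.2 + 1) := by
    generalize (p.1 - p.2 + 1) * (p.1 + p.2 + 1) = x at h2 ⊢
    generalize p.1 ^ 2 + p.1 - 2 * n = y at h2
    omega
  have h5 : Prime (5 : ℤ) := by norm_num
  rcases h5.dvd_or_dvd h3 with h4 | h4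
  · left; omega
  · right; omega

theorem master (w : ℤ × ℤ → ℤ) {f f1 f2 f3 : ℤ⟦X⟧}
    (h : HasSum (fun p => (monomial (ex p) (w p) : ℤ⟦X⟧)) f)
    (h1 : HasSum (fun p => (monomial (ey p) (w (m1 p)) : ℤ⟦X⟧)) f1)
    (h2 : HasSum (fun p => (monomial (ey p) (w (m2 p)) : ℤ⟦X⟧)) f2)
    (h3 : HasSum (fun p => (monomial (ex p) (w (m3 p)) : ℤ⟦X⟧)) f3) (n : ℕ) :
    coeff (5 * n + 1) f = coeff n f1 + coeff n f2 - if 5 ∣ n then coeff (n / 5) f3 else 0 := by
  have k := hasSum_coeff _ _ h (5 * n + 1)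
  refine k.unique (lattice _ m1 m2 m3 inj1 inj2 inj3 ?_ ?_ ?_ ?_ ?_)
  · intro p hp
    simp only [ne_eq, ite_eq_right_iff, not_forall] at hp
    obtain ⟨hp, -⟩ := hp
    exact cover p n hp
  · intro p
    rw [mem1, mem2, mem3]
    omega
  · have k1 := hasSum_coeff _ _ h1 n
    convert k1 using 2 with p
    rw [ex_m1]
    congr 1
    apply propext
    omega
  · have k1 := hasSum_coeff _ _ h2 n
    convert k1 using 2 with p
    rw [ex_m2]
    congr 1
    apply propext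
    omega
  · split_ifs with hn
    · have k1 := hasSum_coeff _ _ h3 (n / 5)
      convert k1 using 2 with p
      rw [ex_m3]
      congr 1
      apply propext
      omega
    · convert hasSum_zero using 2 with p
      rw [ex_m3]
      rw [if_neg (by omega)]

theorem hasSum_E1' : HasSum (fun m : ℤ => (monomial (pentagonal (-m)) (sg m) : ℤ⟦X⟧)) E1 := by
  have h := (Equiv.neg ℤ).hasSum_iff.2 hasSum_E1
  simpa [Function.comp_def, sg_neg] using h

theorem pent_neg_bound (i : ℤ) : i.natAbs ≤ pentagonal (-i) + 1 := by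
  have := pent_bound (-i)
  rwa [Int.natAbs_neg] at this

theorem pent2_bound (i : ℤ) : i.natAbs ≤ 2 * pentagonal i + 1 := by
  have := pent_bound i
  omega

end Pool.Agent.PP107.Lat
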