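import Pool.Agent.PP107.Lat

set_option autoImplicit false

namespace Pool.Agent.PP107.TaskA

open Finset PowerSeries Filter Topology
open scoped PowerSeries.WithPiTopology
open Pool.Agent.Q107.OD Pool.Agent.Q107.PP Pool.Agent.PP107.Lat

theorem sg_m1 (a k : ℤ) : sg (a + 2 * k) * sg (a + 1 - 3 * k) = -(1 * sg k) := by
  unfold sg
  split_ifs <;> first | rfl | omega

theorem sg_m2 (a k : ℤ) : sg (a + 2 * k) * sg (-(a + 1 - 3 * k)) = -(1 * sg k) := by
  rw [sg_neg, sg_m1]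

theorem sg_m3 (j x : ℤ) : sg (-(5 * j + 1)) * sg (5 * x) = -(sg j * sg x) := by
  unfold sg
  split_ifs <;> first | rfl | omega

theorem hw : HasSum (fun p : ℤ × ℤ => (monomial (ex p) (sg p.1 * sg p.2) : ℤ⟦X⟧)) (E1 * phi) :=
  hasSum_mul sg sg (fun i => pentagonal (-i)) (fun i => i.natAbs ^ 2) pent_neg_bound sq_bound
    hasSum_E1' hasSum_phi'

theorem main (h : TaskPsiZ) : TaskA := by
  intro n
  have h0 : HasSum (fun p : ℤ × ℤ => (monomial (ey p) (1 * sg p.2) : ℤ⟦X⟧)) (2 * psi * E2) :=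
    hasSum_mul (fun _ => 1) sg tri (fun i => 2 * pentagonal i) tri_bound pent2_bound h hasSum_E2
  have h1 : HasSum (fun p : ℤ × ℤ => (monomial (ey p)
      ((fun p : ℤ × ℤ => sg p.1 * sg p.2) (m1 p)) : ℤ⟦X⟧)) (-(2 * psi * E2)) := by
    have := h0.neg
    simp only [← map_neg] at this
    simpa only [m1, sg_m1] using this
  have h2 : HasSum (fun p : ℤ × ℤ => (monomial (ey p)
      ((fun p : ℤ × ℤ => sg p.1 * sg p.2) (m2 p)) : ℤ⟦X⟧)) (-(2 * psi * E2)) := by
    have := h0.neg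
    simp only [← map_neg] at this
    simpa only [m2, sg_m2] using this
  have h3 : HasSum (fun p : ℤ × ℤ => (monomial (ex p)
      ((fun p : ℤ × ℤ => sg p.1 * sg p.2) (m3 p)) : ℤ⟦X⟧)) (-(E1 * phi)) := by
    have := hw.neg
    simp only [← map_neg] at this
    simpa only [m3, sg_m3] using this
  rw [master _ hw h1 h2 h3 n]
  have e : (2 * psi * E2 : ℤ⟦X⟧) = C 2 * (psi * E2) := by
    rw [map_ofNat]; ring
  rw [map_neg, map_neg, e, coeff_C_mul]
  split_ifs <;> ring

end Pool.Agent.PP107.TaskA
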