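import Pool.Agent.PP107.Lat
import Pool.Agent.Q107.OD.Final

set_option autoImplicit false

namespace Pool.Agent.PP107.TaskB

open Finset PowerSeries Filter Topology
open scoped PowerSeries.WithPiTopology
open Pool.Agent.Q107.OD Pool.Agent.Q107.PP Pool.Agent.PP107.Lat

theorem sg_x (a k : ℤ) : sg (a + 1 - 3 * k) = -(sg a * sg k) := by
  unfold sg
  split_ifs <;> first | rfl | omega

theorem sg_5 (x : ℤ) : sg (5 * x) = sg x := by
  unfold sg
  split_ifs <;> first | rfl | omega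

theorem hw : HasSum (fun p : ℤ × ℤ => (monomial (ex p) ((6 * p.1 + 1) * sg p.2) : ℤ⟦X⟧))
    (T3 * phi) :=
  hasSum_mul (fun m => 6 * m + 1) sg (fun i => pentagonal (-i)) (fun i => i.natAbs ^ 2)
    pent_neg_bound sq_bound hasSum_T3 hasSum_phi'

theorem main : TaskB := by
  intro n
  have h0 : HasSum (fun p : ℤ × ℤ => (monomial (ey p) (sg p.1 * (2 * p.1 + 1) * sg p.2) : ℤ⟦X⟧))
      (2 * T1 * E2) :=
    hasSum_mul (fun m => sg m * (2 * m + 1)) sg tri (fun i => 2 * pentagonal i) tri_bound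
      pent2_bound hasSum_two_T1 hasSum_E2
  have h0' : HasSum (fun p : ℤ × ℤ => (monomial (ey p) (sg p.1 * (sg p.2 * (6 * p.2 - 1))) :
      ℤ⟦X⟧)) (0 * ∑' k : ℤ, (monomial (2 * pentagonal k) (sg k * (6 * k - 1)) : ℤ⟦X⟧)) :=
    hasSum_mul sg (fun k => sg k * (6 * k - 1)) tri (fun i => 2 * pentagonal i) tri_bound
      pent2_bound hasSum_T0 (summable_monomial _ _ (finite_of_bound _ pent2_bound)).hasSum
  have h00 := (h0.mul_left (C (-3))).add (h0'.mul_left (C (-2)))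
  rw [zero_mul, mul_zero, add_zero] at h00
  have h1 : HasSum (fun p : ℤ × ℤ => (monomial (ey p)
      ((fun p : ℤ × ℤ => (6 * p.1 + 1) * sg p.2) (m1 p)) : ℤ⟦X⟧)) (C (-3) * (2 * T1 * E2)) := by
    have e : (fun p : ℤ × ℤ => (monomial (ey p)
        ((fun p : ℤ × ℤ => (6 * p.1 + 1) * sg p.2) (m1 p)) : ℤ⟦X⟧)) =
        fun p : ℤ × ℤ => C (-3) * monomial (ey p) (sg p.1 * (2 * p.1 + 1) * sg p.2) +
          C (-2) * monomial (ey p) (sg p.1 * (sg p.2 * (6 * p.2 - 1))) := by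
      funext p
      rw [← smul_eq_C_mul, ← smul_eq_C_mul, ← map_smul, ← map_smul, ← map_add]
      congr 1
      simp only [m1, sg_x, smul_eq_mul]
      ring
    rw [e]
    exact h00
  have h2 : HasSum (fun p : ℤ × ℤ => (monomial (ey p)
      ((fun p : ℤ × ℤ => (6 * p.1 + 1) * sg p.2) (m2 p)) : ℤ⟦X⟧)) (C (-3) * (2 * T1 * E2)) := by
    have e : (fun p : ℤ × ℤ => (monomial (ey p)
        ((fun p : ℤ × ℤ => (6 * p.1 + 1) * sg p.2) (m2 p)) : ℤ⟦X⟧)) =
        fun p : ℤ × ℤ => C (-3) * monomial (ey p) (sg p.1 * (2 * p.1 + 1) * sg p.2) +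
          C (-2) * monomial (ey p) (sg p.1 * (sg p.2 * (6 * p.2 - 1))) := by
      funext p
      rw [← smul_eq_C_mul, ← smul_eq_C_mul, ← map_smul, ← map_smul, ← map_add]
      congr 1
      simp only [m2, sg_neg, sg_x, smul_eq_mul]
      ring
    rw [e]
    exact h00
  have h3 : HasSum (fun p : ℤ × ℤ => (monomial (ex p)
      ((fun p : ℤ × ℤ => (6 * p.1 + 1) * sg p.2) (m3 p)) : ℤ⟦X⟧)) (C (-5) * (T3 * phi)) := by
    have e : (fun p : ℤ × ℤ => (monomial (ex p)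
        ((fun p : ℤ × ℤ => (6 * p.1 + 1) * sg p.2) (m3 p)) : ℤ⟦X⟧)) =
        fun p : ℤ × ℤ => C (-5) * monomial (ex p) ((6 * p.1 + 1) * sg p.2) := by
      funext p
      rw [← smul_eq_C_mul, ← map_smul]
      congr 1
      simp only [m3, sg_5, smul_eq_mul]
      ring
    rw [e]
    exact hw.mul_left (C (-5))
  rw [master _ hw h1 h2 h3 n]
  have e : (2 * T1 * E2 : ℤ⟦X⟧) = C 2 * (T1 * E2) := by
    rw [map_ofNat]; ring
  rw [e]
  simp only [coeff_C_mul]
  split_ifs <;> ring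

end Pool.Agent.PP107.TaskB
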