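import Pool.Agent.Q107.PP.Stmts

/-!
# `r₂(5n) = 2 r₂(n) - r₂(n/5)` with signs
-/

set_option autoImplicit false

namespace Pool.Agent.PP107.TaskC

open Finset PowerSeries Filter Topology
open scoped PowerSeries.WithPiTopology
open Pool.Agent.Q107.OD Pool.Agent.Q107.PP

/-- pairs with `a² + b² = n` -/
def R (n : ℤ) : Set (ℤ × ℤ) := {p | p.1 ^ 2 + p.2 ^ 2 = n}

theorem finR (n : ℤ) : (R n).Finite := by
  refine ((Set.finite_Icc (-n) n).prod (Set.finite_Icc (-n) n)).subset ?_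
  rintro ⟨a, b⟩ h
  have h' : a ^ 2 + b ^ 2 = n := h
  rw [Set.mem_prod, Set.mem_Icc, Set.mem_Icc]
  simp only
  refine ⟨⟨?_, ?_⟩, ?_, ?_⟩
  · nlinarith [sq_nonneg b, Int.le_self_sq (-a)]
  · nlinarith [sq_nonneg b, Int.le_self_sq a]
  · nlinarith [sq_nonneg a, Int.le_self_sq (-b)]
  · nlinarith [sq_nonneg a, Int.le_self_sq b]

theorem sg_sq (a : ℤ) : sg (a ^ 2) = sg a := by
  unfold sg
  rcases Int.emod_two_eq_zero_or_one a with h | h
  · have : a ^ 2 % 2 = 0 := by rw [pow_two, Int.mul_emod, h]; rfl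
    rw [if_pos this, if_pos h]
  · have : a ^ 2 % 2 = 1 := by rw [pow_two, Int.mul_emod, h]; rfl
    rw [if_neg (by omega), if_neg (by omega)]

theorem coeff_phi2 (n : ℕ) : coeff n (phi ^ 2) = sg n * ((R n).ncard : ℤ) := by
  have h := hasSum_mul sg sg (fun i => i.natAbs ^ 2) (fun i => i.natAbs ^ 2) sq_bound sq_bound
    hasSum_phi' hasSum_phi'
  have h1 := ((WithPiTopology.hasSum_iff_hasSum_coeff ℤ).1 h) n
  have key : ∀ p : ℤ × ℤ, (n = p.1.natAbs ^ 2 + p.2.natAbs ^ 2) ↔ p ∈ R n := by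
    intro p
    have e : ((p.1.natAbs ^ 2 + p.2.natAbs ^ 2 : ℕ) : ℤ) = p.1 ^ 2 + p.2 ^ 2 := by
      push_cast
      rw [sq_abs, sq_abs]
    constructor
    · intro hn
      have : (n : ℤ) = p.1 ^ 2 + p.2 ^ 2 := by rw [← e, ← hn]
      exact this.symm
    · intro hp
      have hp' : p.1 ^ 2 + p.2 ^ 2 = (n : ℤ) := hp
      rw [← e] at hp'
      exact_mod_cast hp'.symm
  have h2 : HasSum (fun p : ℤ × ℤ => coeff n (monomial (p.1.natAbs ^ 2 + p.2.natAbs ^ 2)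
      (sg p.1 * sg p.2) : ℤ⟦X⟧)) (∑ p ∈ (finR n).toFinset, coeff n
        (monomial (p.1.natAbs ^ 2 + p.2.natAbs ^ 2) (sg p.1 * sg p.2) : ℤ⟦X⟧)) := by
    apply hasSum_sum_of_ne_finset_zero
    intro p hp
    rw [Set.Finite.mem_toFinset] at hp
    rw [coeff_monomial, if_neg (fun h => hp ((key p).1 h))]
  rw [pow_two, h1.unique h2]
  have h3 : ∀ p ∈ (finR n).toFinset, coeff n
      (monomial (p.1.natAbs ^ 2 + p.2.natAbs ^ 2) (sg p.1 * sg p.2) : ℤ⟦X⟧) = sg n := by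
    intro p hp
    rw [Set.Finite.mem_toFinset] at hp
    rw [coeff_monomial, if_pos ((key p).2 hp)]
    have hp' : p.1 ^ 2 + p.2 ^ 2 = (n : ℤ) := hp
    rw [← hp', sg_add, sg_sq, sg_sq]
  rw [Finset.sum_congr rfl h3, Finset.sum_const, Set.ncard_eq_toFinset_card _ (finR n),
    nsmul_eq_mul, mul_comm]

theorem five_prime : Prime (5 : ℤ) := by norm_num

def f1 (p : ℤ × ℤ) : ℤ × ℤ := (2 * p.1 - p.2, p.1 + 2 * p.2)
def f2 (p : ℤ × ℤ) : ℤ × ℤ := (2 * p.1 + p.2, 2 * p.2 - p.1)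
def f3 (p : ℤ × ℤ) : ℤ × ℤ := (5 * p.1, 5 * p.2)

theorem f1_inj : Function.Injective f1 := by
  rintro ⟨a, b⟩ ⟨c, d⟩ h
  simp only [f1, Prod.mk.injEq] at h
  rw [Prod.mk.injEq]
  constructor <;> omega

theorem f2_inj : Function.Injective f2 := by
  rintro ⟨a, b⟩ ⟨c, d⟩ h
  simp only [f2, Prod.mk.injEq] at h
  rw [Prod.mk.injEq]
  constructor <;> omega

theorem f3_inj : Function.Injective f3 := by
  rintro ⟨a, b⟩ ⟨c, d⟩ h
  simp only [f3, Prod.mk.injEq] at h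
  rw [Prod.mk.injEq]
  constructor <;> omega

theorem mem1 (n : ℤ) (p : ℤ × ℤ) : p ∈ f1 '' R n ↔ p ∈ R (5 * n) ∧ (5 : ℤ) ∣ 2 * p.1 + p.2 := by
  obtain ⟨x, y⟩ := p
  constructor
  · rintro ⟨⟨a, b⟩, h, he⟩
    have h' : a ^ 2 + b ^ 2 = n := h
    simp only [f1, Prod.mk.injEq] at he
    obtain ⟨rfl, rfl⟩ := he
    refine ⟨?_, ⟨a, by ring⟩⟩
    show (2 * a - b) ^ 2 + (a + 2 * b) ^ 2 = 5 * n
    rw [← h']; ring
  · rintro ⟨h, ⟨a, ha⟩⟩
    have h' : x ^ 2 + y ^ 2 = 5 * n := h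
    simp only at ha
    obtain ⟨b, hb⟩ : ∃ b, 2 * y - x = 5 * b := ⟨2 * a - x, by omega⟩
    have hx : x = 2 * a - b := by omega
    have hy : y = a + 2 * b := by omega
    refine ⟨(a, b), ?_, ?_⟩
    · show a ^ 2 + b ^ 2 = n
      rw [hx, hy] at h'
      nlinarith
    · simp only [f1, hx, hy]

theorem mem2 (n : ℤ) (p : ℤ × ℤ) : p ∈ f2 '' R n ↔ p ∈ R (5 * n) ∧ (5 : ℤ) ∣ 2 * p.1 - p.2 := by
  obtain ⟨x, y⟩ := p
  constructor
  · rintro ⟨⟨a, b⟩, h, he⟩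
    have h' : a ^ 2 + b ^ 2 = n := h
    simp only [f2, Prod.mk.injEq] at he
    obtain ⟨rfl, rfl⟩ := he
    refine ⟨?_, ⟨a, by ring⟩⟩
    show (2 * a + b) ^ 2 + (2 * b - a) ^ 2 = 5 * n
    rw [← h']; ring
  · rintro ⟨h, ⟨a, ha⟩⟩
    have h' : x ^ 2 + y ^ 2 = 5 * n := h
    simp only at ha
    obtain ⟨b, hb⟩ : ∃ b, x + 2 * y = 5 * b := ⟨x - 2 * a, by omega⟩
    have hx : x = 2 * a + b := by omega
    have hy : y = 2 * b - a := by omega
    refine ⟨(a, b), ?_, ?_⟩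
    · show a ^ 2 + b ^ 2 = n
      rw [hx, hy] at h'
      nlinarith
    · simp only [f2, hx, hy]

theorem union_eq (n : ℤ) : f1 '' R n ∪ f2 '' R n = R (5 * n) := by
  ext p
  rw [Set.mem_union, mem1, mem2]
  constructor
  · rintro (h | h) <;> exact h.1
  · intro h
    have h' : p.1 ^ 2 + p.2 ^ 2 = 5 * n := h
    have h2 : (5 : ℤ) ∣ (2 * p.1 + p.2) * (2 * p.1 - p.2) := ⟨p.1 ^ 2 - n, by linarith⟩
    rcases five_prime.dvd_or_dvd h2 with h3 | h3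
    · exact Or.inl ⟨h, h3⟩
    · exact Or.inr ⟨h, h3⟩

theorem inter_eq (n : ℤ) : f1 '' R n ∩ f2 '' R n = f3 '' {p | 5 * (p.1 ^ 2 + p.2 ^ 2) = n} := by
  ext p
  rw [Set.mem_inter_iff, mem1, mem2]
  obtain ⟨x, y⟩ := p
  constructor
  · rintro ⟨⟨h, h1⟩, _, h2⟩
    have h' : x ^ 2 + y ^ 2 = 5 * n := h
    simp only at h1 h2
    obtain ⟨a, ha⟩ : ∃ a, x = 5 * a := by
      have : (5 : ℤ) ∣ x := by omega
      exact this
    obtain ⟨b, hb⟩ : ∃ b, y = 5 * b := by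
      have : (5 : ℤ) ∣ y := by omega
      exact this
    refine ⟨(a, b), ?_, ?_⟩
    · show 5 * (a ^ 2 + b ^ 2) = n
      rw [ha, hb] at h'
      nlinarith
    · simp only [f3, ha, hb]
  · rintro ⟨⟨a, b⟩, h, he⟩
    have h' : 5 * (a ^ 2 + b ^ 2) = n := h
    simp only [f3, Prod.mk.injEq] at he
    obtain ⟨rfl, rfl⟩ := he
    have hm : ((5 * a, 5 * b) : ℤ × ℤ) ∈ R (5 * n) := by
      show (5 * a) ^ 2 + (5 * b) ^ 2 = 5 * n
      rw [← h']; ring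
    exact ⟨⟨hm, ⟨2 * a + b, by ring⟩⟩, hm, ⟨2 * a - b, by ring⟩⟩

theorem count (n : ℤ) : (R (5 * n)).ncard + {p : ℤ × ℤ | 5 * (p.1 ^ 2 + p.2 ^ 2) = n}.ncard =
    2 * (R n).ncard := by
  have h := Set.ncard_union_add_ncard_inter (f1 '' R n) (f2 '' R n) ((finR n).image _)
    ((finR n).image _)
  rw [union_eq, inter_eq, Set.ncard_image_of_injective _ f1_inj,
    Set.ncard_image_of_injective _ f2_inj, Set.ncard_image_of_injective _ f3_inj] at h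
  omega

theorem sg_five (n : ℤ) : sg (5 * n) = sg n := by
  unfold sg
  split_ifs <;> first | rfl | omega

theorem main : TaskC := by
  intro n
  rw [coeff_phi2, coeff_phi2]
  have h := count n
  have h5 : ((5 * n : ℕ) : ℤ) = 5 * (n : ℤ) := by push_cast; ring
  rw [h5, sg_five]
  have hz : ((R (5 * (n : ℤ))).ncard : ℤ) +
      ({p : ℤ × ℤ | 5 * (p.1 ^ 2 + p.2 ^ 2) = (n : ℤ)}.ncard : ℤ) = 2 * ((R n).ncard : ℤ) := by
    exact_mod_cast h
  by_cases hd : 5 ∣ n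
  · rw [if_pos hd, coeff_phi2]
    obtain ⟨m, rfl⟩ := hd
    have e1 : 5 * m / 5 = m := by omega
    have e2 : {p : ℤ × ℤ | 5 * (p.1 ^ 2 + p.2 ^ 2) = ((5 * m : ℕ) : ℤ)} = R m := by
      ext p
      show 5 * (p.1 ^ 2 + p.2 ^ 2) = ((5 * m : ℕ) : ℤ) ↔ p.1 ^ 2 + p.2 ^ 2 = (m : ℤ)
      push_cast
      omega
    rw [e2] at hz
    rw [e1]
    have e3 : sg ((5 * m : ℕ) : ℤ) = sg m := by push_cast; exact sg_five m
    rw [e3]
    linear_combination sg m * hz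
  · rw [if_neg hd]
    have e2 : {p : ℤ × ℤ | 5 * (p.1 ^ 2 + p.2 ^ 2) = (n : ℤ)} = ∅ := by
      ext p
      constructor
      · intro hp
        have hp' : 5 * (p.1 ^ 2 + p.2 ^ 2) = (n : ℤ) := hp
        exact absurd (by omega) hd
      · intro hp; exact absurd hp (Set.notMem_empty _)
    rw [e2, Set.ncard_empty] at hz
    push_cast at hz
    linear_combination sg n * hz

end Pool.Agent.PP107.TaskC
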