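import Pool.Agent.Q107.PP.Stmts

set_option autoImplicit false

namespace Pool.Agent.PP107.TaskD0

open Finset PowerSeries Filter Topology
open scoped PowerSeries.WithPiTopology
open Pool.Agent.Q107.OD Pool.Agent.Q107.PP

/-- the term of `phi` -/
noncomputable def F (i : ℤ) : ℤ⟦X⟧ := monomial (i.natAbs ^ 2) (sg i)

/-- the residue classes -/
def gm (r : Fin 5) (j : ℤ) : ℤ :=
  match r with
  | 0 => 5 * j
  | 1 => 5 * j - 1
  | 2 => -(5 * j - 1)
  | 3 => 5 * j - 2
  | 4 => -(5 * j - 2)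

theorem gm_bij : Function.Bijective (fun q : Fin 5 × ℤ => gm q.1 q.2) := by
  constructor
  · rintro ⟨r, a⟩ ⟨r', a'⟩ h
    fin_cases r <;> fin_cases r' <;> simp only [gm] at h <;>
      first
      | (exfalso; omega)
      | (have h2 : a = a' := by omega
         rw [h2])
  · intro m
    have h5 : m % 5 = 0 ∨ m % 5 = 1 ∨ m % 5 = 2 ∨ m % 5 = 3 ∨ m % 5 = 4 := by omega
    rcases h5 with h | h | h | h | h
    · exact ⟨(0, m / 5), by simp only [gm]; omega⟩
    · exact ⟨(2, -(m / 5)), by simp only [gm]; omega⟩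
    · exact ⟨(4, -(m / 5)), by simp only [gm]; omega⟩
    · exact ⟨(3, m / 5 + 1), by simp only [gm]; omega⟩
    · exact ⟨(1, m / 5 + 1), by simp only [gm]; omega⟩

theorem sg_five (j : ℤ) : sg (5 * j) = sg j := by
  unfold sg
  split_ifs <;> first | rfl | omega

theorem e3_bound (i : ℤ) : i.natAbs ≤ (5 * i ^ 2 - 2 * i).toNat + 1 := by
  have h : 0 ≤ 5 * i ^ 2 - 2 * i := by
    rcases le_or_gt i 0 with h | h
    · nlinarith
    · nlinarith
  have : |i| ≤ (5 * i ^ 2 - 2 * i) + 1 := by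
    rw [abs_le]
    constructor <;> nlinarith [sq_nonneg (i : ℤ), sq_nonneg (i - 1), sq_nonneg (i + 1)]
  rw [Int.abs_eq_natAbs] at this
  omega

theorem e1_bound (i : ℤ) : i.natAbs ≤ (5 * i ^ 2 - 4 * i).toNat + 1 := by
  have h : 0 ≤ 5 * i ^ 2 - 4 * i := by
    rcases le_or_gt i 0 with h | h
    · nlinarith
    · nlinarith
  have : |i| ≤ (5 * i ^ 2 - 4 * i) + 1 := by
    rw [abs_le]
    constructor <;> nlinarith [sq_nonneg (i : ℤ), sq_nonneg (i - 1), sq_nonneg (i + 1)]
  rw [Int.abs_eq_natAbs] at this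
  omega

theorem hasSum_A3 : HasSum (fun j : ℤ => (monomial (5 * j ^ 2 - 2 * j).toNat (sg j) : ℤ⟦X⟧)) A3 :=
  (summable_monomial _ _ (finite_of_bound _ e3_bound)).hasSum

theorem hasSum_A1 : HasSum (fun j : ℤ => (monomial (5 * j ^ 2 - 4 * j).toNat (sg j) : ℤ⟦X⟧)) A1 :=
  (summable_monomial _ _ (finite_of_bound _ e1_bound)).hasSum

theorem hasSum_0 : HasSum (fun j : ℤ => F (5 * j)) (expand 25 (by norm_num) phi) := by
  have h : HasSum (fun m : ℤ => expand (R := ℤ) 25 (by norm_num)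
      (monomial (m.natAbs ^ 2) (sg m) : ℤ⟦X⟧)) (expand 25 (by norm_num) phi) :=
    hasSum_phi'.map (expand (R := ℤ) 25 (by norm_num)) (continuous_expand 25 (by norm_num))
  have e : (fun j : ℤ => F (5 * j)) = fun m : ℤ => expand (R := ℤ) 25 (by norm_num)
      (monomial (m.natAbs ^ 2) (sg m) : ℤ⟦X⟧) := by
    funext j
    unfold F
    rw [sg_five, Int.natAbs_mul, expand_monomial]
    congr 1
    simp only [Int.reduceAbs]
    ring
  rw [e]
  exact h

theorem hasSum_1 : HasSum (fun j : ℤ => F (5 * j - 1)) (-(X * expand 5 (by norm_num) A3)) := by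
  have h : HasSum (fun m : ℤ => expand (R := ℤ) 5 (by norm_num)
      (monomial (5 * m ^ 2 - 2 * m).toNat (sg m) : ℤ⟦X⟧)) (expand 5 (by norm_num) A3) :=
    hasSum_A3.map (expand (R := ℤ) 5 (by norm_num)) (continuous_expand 5 (by norm_num))
  have h2 := (h.mul_left X).neg
  have e : (fun j : ℤ => F (5 * j - 1)) = fun m : ℤ => -(X * expand (R := ℤ) 5 (by norm_num)
      (monomial (5 * m ^ 2 - 2 * m).toNat (sg m) : ℤ⟦X⟧)) := by
    funext j
    unfold F
    have h0 : 0 ≤ 5 * j ^ 2 - 2 * j := by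
      rcases le_or_gt j 0 with h | h
      · nlinarith
      · nlinarith
    have e1 : (5 * j - 1).natAbs ^ 2 = 1 + 5 * (5 * j ^ 2 - 2 * j).toNat := by
      zify
      rw [Int.toNat_of_nonneg h0, sq_abs]
      ring
    have e2 : sg (5 * j - 1) = - sg j := by
      rw [sub_eq_add_neg, sg_add, sg_five, show sg (-1) = -1 by decide]
      ring
    rw [expand_monomial, X_eq, monomial_mul_monomial, e1, e2, ← map_neg]
    congr 1
    ring
  rw [e]
  exact h2

theorem hasSum_3 : HasSum (fun j : ℤ => F (5 * j - 2)) (X ^ 4 * expand 5 (by norm_num) A1) := by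
  have h : HasSum (fun m : ℤ => expand (R := ℤ) 5 (by norm_num)
      (monomial (5 * m ^ 2 - 4 * m).toNat (sg m) : ℤ⟦X⟧)) (expand 5 (by norm_num) A1) :=
    hasSum_A1.map (expand (R := ℤ) 5 (by norm_num)) (continuous_expand 5 (by norm_num))
  have h2 := (h.mul_left (X ^ 4))
  have e : (fun j : ℤ => F (5 * j - 2)) = fun m : ℤ => (X ^ 4 * expand (R := ℤ) 5 (by norm_num)
      (monomial (5 * m ^ 2 - 4 * m).toNat (sg m) : ℤ⟦X⟧)) := by
    funext j
    unfold F
    have h0 : 0 ≤ 5 * j ^ 2 - 4 * j := by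
      rcases le_or_gt j 0 with h | h
      · nlinarith
      · nlinarith
    have e1 : (5 * j - 2).natAbs ^ 2 = 4 + 5 * (5 * j ^ 2 - 4 * j).toNat := by
      zify
      rw [Int.toNat_of_nonneg h0, sq_abs]
      ring
    have e2 : sg (5 * j - 2) = sg j := by
      rw [sub_eq_add_neg, sg_add, sg_five, show sg (-2) = 1 by decide]
      ring
    rw [expand_monomial, X_pow_eq, monomial_mul_monomial, e1, e2]
    congr 1
    ring
  rw [e]
  exact h2

theorem F_neg (i : ℤ) : F (-i) = F i := by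
  unfold F
  rw [Int.natAbs_neg, sg_neg]

/-- the pieces -/
noncomputable def piece (r : Fin 5) : ℤ⟦X⟧ :=
  match r with
  | 0 => expand 25 (by norm_num) phi
  | 1 => -(X * expand 5 (by norm_num) A3)
  | 2 => -(X * expand 5 (by norm_num) A3)
  | 3 => X ^ 4 * expand 5 (by norm_num) A1
  | 4 => X ^ 4 * expand 5 (by norm_num) A1

theorem hasSum_piece (r : Fin 5) : HasSum (fun c : ℤ => F (gm r c)) (piece r) := by
  fin_cases r
  · exact hasSum_0
  · exact hasSum_1
  · have : (fun c : ℤ => F (gm 2 c)) = fun j : ℤ => F (5 * j - 1) := by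
      funext j
      exact F_neg _
    show HasSum (fun c : ℤ => F (gm 2 c)) (piece 2)
    rw [this]
    exact hasSum_1
  · exact hasSum_3
  · have : (fun c : ℤ => F (gm 4 c)) = fun j : ℤ => F (5 * j - 2) := by
      funext j
      exact F_neg _
    show HasSum (fun c : ℤ => F (gm 4 c)) (piece 4)
    rw [this]
    exact hasSum_3

theorem main : Pool.Agent.Q107.PP.TaskD0 := by
  unfold Pool.Agent.Q107.PP.TaskD0
  have hphi : HasSum F phi := hasSum_phi'
  have h1 := (Equiv.ofBijective _ gm_bij).hasSum_iff (f := F) |>.2 hphi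
  have hF : HasSum (fun q : Fin 5 × ℤ => F (gm q.1 q.2)) phi := h1
  have h2 := hF.prod_fiberwise hasSum_piece
  have h3 := h2.unique (hasSum_fintype piece)
  rw [Fin.sum_univ_five] at h3
  simp only [piece] at h3
  refine h3.trans ?_
  ring

end Pool.Agent.PP107.TaskD0
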