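import Pool.Agent.Q107.PP.Stmts

set_option autoImplicit false

namespace Pool.Agent.PP107.TaskD1

open Finset PowerSeries Filter Topology
open scoped PowerSeries.WithPiTopology
open Pool.Agent.Q107.OD Pool.Agent.Q107.PP

theorem prod_block (f : ℕ → ℤ⟦X⟧) (k n : ℕ) :
    ∏ j ∈ range (k * n), f j = ∏ i ∈ range n, ∏ s ∈ range k, f (k * i + s) := by
  induction n with
  | zero => simp
  | succ n ih => rw [Nat.mul_succ, prod_range_add, ih, prod_range_succ]

theorem tendsto_block {f : ℕ → ℤ⟦X⟧} {a : ℤ⟦X⟧} (h : HasProd f a) (k : ℕ) (hk : 0 < k) :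
    Tendsto (fun n => ∏ i ∈ range n, ∏ s ∈ range k, f (k * i + s)) atTop (𝓝 a) := by
  have h1 := h.tendsto_prod_nat.comp (tendsto_id.const_mul_atTop' hk)
  refine h1.congr fun n => ?_
  simp only [Function.comp_apply, id]
  exact prod_block f k n

theorem hasProd_expand (k : ℕ) (hk : k ≠ 0) :
    HasProd (fun n => (1 - X ^ (k * (n + 1)) : ℤ⟦X⟧)) (expand k hk E1) := by
  have h : HasProd (fun n => expand (R := ℤ) k hk (1 - X ^ (n + 1) : ℤ⟦X⟧)) (expand k hk E1) :=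
    hasProd_E1.map (expand (R := ℤ) k hk) (continuous_expand k hk)
  simpa [← pow_mul] using h

theorem main (h : TaskJTP) : Pool.Agent.Q107.PP.TaskD1 := by
  unfold Pool.Agent.Q107.PP.TaskD1
  have hA1 : (∑' i : ℤ, monomial (((10 : ℕ) : ℤ) * (i * (i - 1) / 2) + ((1 : ℕ) : ℤ) * i).toNat
      (sg i) : ℤ⟦X⟧) = A1 := by
    unfold A1
    congr 1
    funext i
    have : ((10 : ℕ) : ℤ) * (i * (i - 1) / 2) + ((1 : ℕ) : ℤ) * i = 5 * i ^ 2 - 4 * i := by
      have h2 : Even (i * (i - 1)) := Int.even_mul_pred_self i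
      obtain ⟨c, hc⟩ := h2
      have h3 : i * (i - 1) / 2 = c := by omega
      rw [h3]
      push_cast
      linarith
    rw [this]
  have hA3 : (∑' i : ℤ, monomial (((10 : ℕ) : ℤ) * (i * (i - 1) / 2) + ((3 : ℕ) : ℤ) * i).toNat
      (sg i) : ℤ⟦X⟧) = A3 := by
    unfold A3
    congr 1
    funext i
    have : ((10 : ℕ) : ℤ) * (i * (i - 1) / 2) + ((3 : ℕ) : ℤ) * i = 5 * i ^ 2 - 2 * i := by
      have h2 : Even (i * (i - 1)) := Int.even_mul_pred_self i
      obtain ⟨c, hc⟩ := h2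
      have h3 : i * (i - 1) / 2 = c := by omega
      rw [h3]
      push_cast
      linarith
    rw [this]
  have t1 := (h 10 1 (by norm_num) (by norm_num)).tendsto_prod_nat
  have t3 := (h 10 3 (by norm_num) (by norm_num)).tendsto_prod_nat
  rw [hA1] at t1
  rw [hA3] at t3
  have e1 := tendsto_block hasProd_E1 10 (by norm_num)
  have e2 := tendsto_block (hasProd_expand 2 two_ne_zero) 5 (by norm_num)
  have e5 := tendsto_block (hasProd_expand 5 (by norm_num)) 2 (by norm_num)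
  have e10 := (hasProd_expand 10 (by norm_num)).tendsto_prod_nat
  have l := (e2.mul e5).mul (t1.mul t3)
  have r := e1.mul (e10.pow 3)
  refine tendsto_nhds_unique (l.congr fun n => ?_) r
  rw [← prod_mul_distrib, ← prod_mul_distrib, ← prod_mul_distrib, ← prod_pow, ← prod_mul_distrib]
  refine prod_congr rfl fun i _ => ?_
  have c1 : 10 * i + 10 - 1 = 10 * i + 9 := by omega
  have c3 : 10 * i + 10 - 3 = 10 * i + 7 := by omega
  rw [c1, c3]
  simp only [prod_range_succ, prod_range_zero]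
  have w : ∀ a b : ℕ, a = b → (1 - X ^ a : ℤ⟦X⟧) = 1 - X ^ b := fun a b hab => by rw [hab]
  rw [w (2 * (5 * i + 0 + 1)) (10 * i + 2) (by ring), w (2 * (5 * i + 1 + 1)) (10 * i + 4) (by ring),
    w (2 * (5 * i + 2 + 1)) (10 * i + 6) (by ring), w (2 * (5 * i + 3 + 1)) (10 * i + 8) (by ring),
    w (2 * (5 * i + 4 + 1)) (10 * i + 10) (by ring), w (5 * (2 * i + 0 + 1)) (10 * i + 5) (by ring),
    w (5 * (2 * i + 1 + 1)) (10 * i + 10) (by ring), w (10 * i + 0 + 1) (10 * i + 1) (by ring),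
    w (10 * i + 1 + 1) (10 * i + 2) (by ring), w (10 * i + 2 + 1) (10 * i + 3) (by ring),
    w (10 * i + 3 + 1) (10 * i + 4) (by ring), w (10 * i + 4 + 1) (10 * i + 5) (by ring),
    w (10 * i + 5 + 1) (10 * i + 6) (by ring), w (10 * i + 6 + 1) (10 * i + 7) (by ring),
    w (10 * i + 7 + 1) (10 * i + 8) (by ring), w (10 * i + 8 + 1) (10 * i + 9) (by ring),
    w (10 * i + 9 + 1) (10 * i + 10) (by ring), w (10 * (i + 1)) (10 * i + 10) (by ring)]
  generalize (1 - X ^ (10 * i + 1) : ℤ⟦X⟧) = x1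
  generalize (1 - X ^ (10 * i + 2) : ℤ⟦X⟧) = x2
  generalize (1 - X ^ (10 * i + 3) : ℤ⟦X⟧) = x3
  generalize (1 - X ^ (10 * i + 4) : ℤ⟦X⟧) = x4
  generalize (1 - X ^ (10 * i + 5) : ℤ⟦X⟧) = x5
  generalize (1 - X ^ (10 * i + 6) : ℤ⟦X⟧) = x6
  generalize (1 - X ^ (10 * i + 7) : ℤ⟦X⟧) = x7
  generalize (1 - X ^ (10 * i + 8) : ℤ⟦X⟧) = x8
  generalize (1 - X ^ (10 * i + 9) : ℤ⟦X⟧) = x9
  generalize (1 - X ^ (10 * i + 10) : ℤ⟦X⟧) = x10
  ring

end Pool.Agent.PP107.TaskD1
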