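import Pool.Agent.PP107.DSeq

set_option autoImplicit false

namespace Pool.Agent.PP107.TaskF1

open Finset PowerSeries
open Pool.Agent.Q107.PP

/-- number of distinct partitions of `n` with a part `a` -/
def D (n a : ℕ) : ℕ := ((Nat.Partition.distincts n).filter fun p => a ∈ p.parts).card

lemma mem_dis {n : ℕ} (p : n.Partition) : p ∈ Nat.Partition.distincts n ↔ p.parts.Nodup := by
  unfold Nat.Partition.distincts
  simp

lemma D_card (m a : ℕ) (ha : 0 < a) : D (m + a) a =
    ((Nat.Partition.distincts m).filter fun p => a ∉ p.parts).card := by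
  unfold D
  refine Finset.card_bij' (i := fun p _ => if h : a ∈ p.parts then
      (⟨p.parts.erase a, fun hi => p.parts_pos (Multiset.mem_of_mem_erase hi), by
        have h1 := Multiset.sum_erase h
        have h2 := p.parts_sum
        omega⟩ : m.Partition) else default)
    (j := fun p _ => (⟨a ::ₘ p.parts, fun {i} hi => by
        rcases Multiset.mem_cons.1 hi with h | h
        · exact h ▸ ha
        · exact p.parts_pos h, by
        rw [Multiset.sum_cons, p.parts_sum]; omega⟩ : (m + a).Partition)) ?_ ?_ ?_ ?_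
  · intro p hp
    rw [mem_filter, mem_dis] at hp
    rw [mem_filter, mem_dis]
    simp only [dif_pos hp.2]
    exact ⟨hp.1.erase a, hp.1.notMem_erase⟩
  · intro p hp
    rw [mem_filter, mem_dis] at hp
    rw [mem_filter, mem_dis]
    exact ⟨Multiset.nodup_cons.2 ⟨hp.2, hp.1⟩, Multiset.mem_cons_self a _⟩
  · intro p hp
    rw [mem_filter, mem_dis] at hp
    simp only [dif_pos hp.2]
    ext1
    exact Multiset.cons_erase hp.2
  · intro p hp
    rw [mem_filter, mem_dis] at hp
    simp only [dif_pos (Multiset.mem_cons_self a _)]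
    ext1
    exact Multiset.erase_cons_head a _

lemma D_rec (m a : ℕ) (ha : 0 < a) : D (m + a) a + D m a = Q m := by
  rw [D_card m a ha]
  unfold D Q
  rw [add_comm]
  exact Finset.card_filter_add_card_filter_not _

lemma D_zero (n a : ℕ) (h : n < a) : D n a = 0 := by
  unfold D
  rw [Finset.card_eq_zero, Finset.filter_eq_empty_iff]
  intro p _ hp
  have h1 := Multiset.single_le_sum (fun _ _ => Nat.zero_le _) _ hp
  rw [p.parts_sum] at h1
  omega

/-- coefficients of `X^a/(1+X^a)` -/
def K (a j : ℕ) : ℤ := if a ∣ j ∧ j ≠ 0 then (-1) ^ (j / a + 1) else 0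

lemma K_eq (a : ℕ) (ha : 0 < a) : (PowerSeries.mk (K a) : ℤ⟦X⟧) * (1 + X ^ a) = X ^ a := by
  ext j
  rw [mul_add, mul_one, map_add, coeff_mk, coeff_mul_X_pow', coeff_X_pow]
  unfold K
  rcases lt_trichotomy j a with h | h | h
  · rw [if_neg, if_neg (by omega), if_neg (by omega)]
    · simp
    · rintro ⟨h1, h2⟩
      exact absurd (Nat.le_of_dvd (by omega) h1) (by omega)
  · subst h
    rw [if_pos ⟨dvd_rfl, by omega⟩, if_pos le_rfl, coeff_mk, Nat.sub_self, if_neg (by simp), if_pos rfl,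
      Nat.div_self ha]
    norm_num
  · rw [if_pos h.le, coeff_mk, if_neg (by omega : ¬ j = a)]
    obtain ⟨c, rfl⟩ : ∃ c, j = c + a := ⟨j - a, by omega⟩
    rw [Nat.add_sub_cancel]
    by_cases hc : a ∣ c
    · obtain ⟨d, rfl⟩ := hc
      rw [if_pos ⟨⟨d + 1, by ring⟩, by omega⟩, if_pos ⟨⟨d, rfl⟩, by omega⟩, Nat.add_div_right _ ha,
        Nat.mul_div_cancel_left _ ha, pow_succ]
      ring
    · rw [if_neg, if_neg]
      · simp
      · exact fun h => hc h.1
      · rintro ⟨h1, -⟩
        exact hc ((Nat.dvd_add_left dvd_rfl).1 h1)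

lemma D_eq (a : ℕ) (ha : 0 < a) : (PowerSeries.mk fun n => (D n a : ℤ) : ℤ⟦X⟧) =
    Pd * PowerSeries.mk (K a) := by
  have hne : (1 + X ^ a : ℤ⟦X⟧) ≠ 0 := by
    intro h
    have h1 := congrArg (coeff 0) h
    rw [map_add, coeff_X_pow, if_neg (by omega)] at h1
    simp at h1
  have h1 : (PowerSeries.mk fun n => (D n a : ℤ) : ℤ⟦X⟧) * (1 + X ^ a) = Pd * X ^ a := by
    ext j
    rw [mul_add, mul_one, map_add, coeff_mk, coeff_mul_X_pow', coeff_mul_X_pow']
    split_ifs with h
    · unfold Pd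
      rw [coeff_mk, coeff_mk]
      obtain ⟨c, rfl⟩ : ∃ c, j = c + a := ⟨j - a, by omega⟩
      rw [Nat.add_sub_cancel, ← D_rec c a ha]
      push_cast
      ring
    · rw [D_zero j a (by omega)]
      simp
  refine mul_right_cancel₀ hne ?_
  rw [h1, mul_assoc, K_eq a ha]

lemma DS_D (n : ℕ) : DS n = ∑ a ∈ Icc 1 n, w a * (D n a : ℤ) := by
  rw [DS_eq]
  have h1 : ∀ p ∈ Nat.Partition.distincts n, (p.parts.map w).sum =
      ∑ a ∈ Icc 1 n, if a ∈ p.parts then w a else 0 := by
    intro p hp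
    rw [mem_dis] at hp
    rw [← Finset.sum_filter]
    have e : (Icc 1 n).filter (fun a => a ∈ p.parts) = ⟨p.parts, hp⟩ := by
      ext a
      rw [mem_filter, mem_Icc]
      constructor
      · exact fun h => h.2
      · intro h
        have h' : a ∈ p.parts := h
        have h1 := Multiset.single_le_sum (fun _ _ => Nat.zero_le _) _ h'
        rw [p.parts_sum] at h1
        exact ⟨⟨p.parts_pos h', h1⟩, h'⟩
    rw [e]
    rfl
  rw [Finset.sum_congr rfl h1, Finset.sum_comm]
  refine Finset.sum_congr rfl fun a _ => ?_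
  rw [← Finset.sum_filter, Finset.sum_const, nsmul_eq_mul, mul_comm]
  rfl

lemma w_eq (a : ℕ) : w a = (-1) ^ (a + 1) * (a : ℤ) := by
  unfold w
  split_ifs with h
  · rw [Even.neg_one_pow (by rw [Nat.even_add_one]; exact Nat.not_even_iff_odd.2 h), one_mul]
  · rw [Nat.not_odd_iff_even] at h
    rw [Odd.neg_one_pow (h.add_one)]
    ring

lemma L_eq (n j : ℕ) (hj : j ≤ n) : ∑ a ∈ Icc 1 n, w a * K a j =
    ∑ d ∈ j.divisors, (-1) ^ (d + j / d) * (d : ℤ) := by
  have e : j.divisors = (Icc 1 n).filter (fun a => a ∣ j ∧ j ≠ 0) := by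
    ext a
    rw [Nat.mem_divisors, mem_filter, mem_Icc]
    constructor
    · intro h
      exact ⟨⟨Nat.pos_of_dvd_of_pos h.1 (by omega), (Nat.le_of_dvd (by omega) h.1).trans hj⟩, h⟩
    · exact fun h => h.2
  rw [e, Finset.sum_filter]
  refine Finset.sum_congr rfl fun a _ => ?_
  unfold K
  split_ifs with h
  · rw [w_eq, pow_add, pow_add, pow_add]
    ring
  · simp

theorem main : Pool.Agent.Q107.PP.TaskF1 := by
  unfold TaskF1
  ext n
  rw [coeff_mul]
  unfold G
  rw [coeff_mk, DS_D]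
  have h1 : ∀ a ∈ Icc 1 n, w a * (D n a : ℤ) =
      ∑ x ∈ antidiagonal n, coeff x.1 Pd * (w a * K a x.2) := by
    intro a ha
    rw [mem_Icc] at ha
    have h2 := congrArg (coeff n) (D_eq a (by omega))
    rw [coeff_mk, coeff_mul] at h2
    rw [h2, Finset.mul_sum]
    refine Finset.sum_congr rfl fun x _ => ?_
    rw [coeff_mk]
    ring
  rw [Finset.sum_congr rfl h1, Finset.sum_comm]
  refine Finset.sum_congr rfl fun x hx => ?_
  rw [← Finset.mul_sum, L_eq n x.2 (by rw [HasAntidiagonal.mem_antidiagonal] at hx; omega)]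
  unfold L
  rw [coeff_mk]

end Pool.Agent.PP107.TaskF1
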