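import Pool.Agent.Q107.PP.Stmts

set_option autoImplicit false

namespace Pool.Agent.PP107.TaskF2

open Finset PowerSeries Filter Topology
open scoped PowerSeries.WithPiTopology
open Pool.Agent.Q107.OD Pool.Agent.Q107.PP

theorem main : Pool.Agent.Q107.PP.TaskF2 := by
  unfold Pool.Agent.Q107.PP.TaskF2
  have h := Nat.Partition.hasProd_powerSeriesMk_card_countRestricted ℤ (m := 2) (by norm_num)
  have e : Pd = Mi := by
    have h2 : HasProd (fun n => (1 + X ^ (n + 1) : ℤ⟦X⟧)) Pd := by
      have e1 : (fun i : ℕ => ∑ j ∈ range 2, (X : ℤ⟦X⟧) ^ ((i + 1) * j)) =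
          fun n => (1 + X ^ (n + 1) : ℤ⟦X⟧) := by
        funext i
        simp [Finset.sum_range_succ]
      have e2 : (PowerSeries.mk fun n => ((Nat.Partition.countRestricted n 2).card : ℤ)) = Pd := by
        unfold Pd Q
        simp only [Nat.Partition.countRestricted_two]
      rw [e1, e2] at h
      exact h
    exact h2.unique hasProd_Mi
  rw [e, mul_comm, E1_mul_Mi]

end Pool.Agent.PP107.TaskF2
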