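import Pool.Agent.Q107.PP.Stmts

set_option autoImplicit false

namespace Pool.Agent.PP107.TaskF3

open Finset PowerSeries Filter Topology
open scoped PowerSeries.WithPiTopology
open Pool.Agent.Q107.OD Pool.Agent.Q107.PP

theorem coeff_th (n : ℕ) (f : ℤ⟦X⟧) : coeff n (th f) = n * coeff n f := by
  unfold th
  cases n with
  | zero => simp
  | succ n =>
    rw [coeff_succ_X_mul, coeff_derivative]
    push_cast
    ring

theorem th_mul (f g : ℤ⟦X⟧) : th (f * g) = f * th g + g * th f := by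
  unfold th
  rw [Derivation.leibniz]
  simp only [smul_eq_mul]
  ring

theorem th_sq (f : ℤ⟦X⟧) : th (f ^ 2) = 2 * f * th f := by
  rw [sq, th_mul]
  ring

theorem th_five (f : ℤ⟦X⟧) : th (f ^ 5) = 5 * f ^ 4 * th f := by
  rw [show f ^ 5 = f ^ 2 * f ^ 2 * f by ring, th_mul, th_mul, th_sq]
  ring

theorem th_expand (k : ℕ) (hk : k ≠ 0) (f : ℤ⟦X⟧) :
    th (expand k hk f) = (k : ℤ⟦X⟧) * expand k hk (th f) := by
  ext n
  rw [← nsmul_eq_mul, map_nsmul, coeff_th, coeff_expand, coeff_expand]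
  split_ifs with h
  · obtain ⟨m, rfl⟩ := h
    rw [Nat.mul_div_cancel_left _ (Nat.pos_of_ne_zero hk), coeff_th]
    push_cast
    rw [nsmul_eq_mul]
    ring
  · simp

theorem const_ne {f : ℤ⟦X⟧} (h : constantCoeff f = 1) : f ≠ 0 := by
  intro h0
  rw [h0] at h
  simp at h

theorem E1_const : constantCoeff E1 = 1 := by
  have h := hasProd_E1.map (constantCoeff (R := ℤ)) (WithPiTopology.continuous_constantCoeff ℤ)
  have e : ((constantCoeff (R := ℤ)) ∘ fun n => (1 - X ^ (n + 1) : ℤ⟦X⟧)) =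
      fun _ => (1 : ℤ) := by
    funext n
    simp
  rw [e] at h
  exact h.unique hasProd_one

theorem expand_const (k : ℕ) (hk : k ≠ 0) (f : ℤ⟦X⟧) (h : constantCoeff f = 1) :
    constantCoeff (expand k hk f) = 1 := by
  rw [← coeff_zero_eq_constantCoeff_apply, coeff_expand, if_pos (dvd_zero k), Nat.zero_div,
    coeff_zero_eq_constantCoeff_apply, h]

theorem main (ha : TaskF3a) (hb : TaskF3b) (hc : TaskF3c) (hd : TaskF3d) (hp : TaskPsi) :
    Pool.Agent.Q107.PP.TaskF3 := by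
  unfold TaskF3a at ha
  unfold TaskF3b at hb
  unfold TaskF3c at hc
  unfold TaskF3d at hd
  unfold TaskPsi at hp
  unfold Pool.Agent.Q107.PP.TaskF3
  have n1 : E1 ≠ 0 := const_ne E1_const
  have n2 : E2 ≠ 0 := const_ne (expand_const _ _ _ E1_const)
  have n4 : E4 ≠ 0 := const_ne (expand_const _ _ _ E1_const)
  -- expand 2 of the Psi identity
  have hE4 : expand (R := ℤ) 2 (by norm_num) E2 = E4 := by
    rw [E2, E4, ← expand_mul]
  have hp2 : E2 * psi2 = E4 ^ 2 := by
    have h := congrArg (expand (R := ℤ) 2 (by norm_num)) hp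
    rw [map_mul, map_pow, hE4] at h
    exact h
  -- derivatives
  have d2 : th E2 = -(2 * E2 * expand 2 (by norm_num) S) := by
    rw [E2, th_expand, hb, map_neg, map_mul]
    push_cast
    ring
  have d4 : th E4 = -(4 * E4 * expand 4 (by norm_num) S) := by
    rw [E4, th_expand, hb, map_neg, map_mul]
    push_cast
    ring
  set S2 : ℤ⟦X⟧ := expand 2 (by norm_num) S with hS2
  set S4 : ℤ⟦X⟧ := expand 4 (by norm_num) S with hS4
  have q1 : th psi2 = psi2 * (2 * S2 - 8 * S4) := by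
    have h := congrArg th hp2
    rw [th_mul, th_sq, d2, d4] at h
    have h2 : E2 * th psi2 = E2 * (psi2 * (2 * S2 - 8 * S4)) := by
      linear_combination h + 8 * S4 * hp2
    exact mul_left_cancel₀ n2 h2
  have q2 : th phiP = phiP * (2 * S + 8 * S4 - 10 * S2) := by
    have h := congrArg th hd
    rw [th_mul, th_mul, th_sq, th_sq, th_five, d2, d4, hb] at h
    have h2 : (E1 ^ 2 * E4 ^ 2) * th phiP =
        (E1 ^ 2 * E4 ^ 2) * (phiP * (2 * S + 8 * S4 - 10 * S2)) := by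
      linear_combination h + 10 * S2 * hd
    exact mul_left_cancel₀ (mul_ne_zero (pow_ne_zero 2 n1) (pow_ne_zero 2 n4)) h2
  have q3 : E1 ^ 6 = phiP * psi2 * (1 - 8 * L) := by
    have h : E1 ^ 6 = T1 ^ 2 := by rw [← jacobi]; ring
    rw [h, ha, q1, q2, hc]
    ring
  have q4 : phiP * psi2 * E1 ^ 2 = E2 ^ 4 := by
    have h : (E2 * E4 ^ 2) * (phiP * psi2 * E1 ^ 2) = (E2 * E4 ^ 2) * E2 ^ 4 := by
      linear_combination E2 * psi2 * hd + E2 ^ 5 * hp2
    exact mul_left_cancel₀ (mul_ne_zero n2 (pow_ne_zero 2 n4)) h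
  have q5 : E2 ^ 4 * phi ^ 4 = E2 ^ 4 * (1 - 8 * L) := by
    have h : E2 ^ 4 * phi ^ 4 = E1 ^ 8 := by
      calc E2 ^ 4 * phi ^ 4 = (E2 * phi) ^ 4 := by ring
        _ = E1 ^ 8 := by rw [← gauss]; ring
    rw [h, ← q4]
    linear_combination E1 ^ 2 * q3
  have q6 := mul_left_cancel₀ (pow_ne_zero 4 n2) q5
  rw [q6]
  ring

end Pool.Agent.PP107.TaskF3
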