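import Pool.Agent.Q107.PP.Stmts
import Pool.Agent.Q107.OD.Final

/-!
# TaskF3a: the lattice part of Jacobi's four squares theorem
-/

set_option autoImplicit false

namespace Pool.Agent.PP107.TaskF3a

open Finset PowerSeries Filter Topology
open scoped PowerSeries.WithPiTopology
open Pool.Agent.Q107.OD

/-- the double series -/
noncomputable def F (p : ℤ × ℤ) : ℤ⟦X⟧ :=
  monomial (tri p.1 + tri p.2) (sg p.1 * (2 * p.1 + 1) * (sg p.2 * (2 * p.2 + 1)))

theorem hasSum_F : HasSum F (2 * T1 * (2 * T1)) :=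
  hasSum_mul (fun m => sg m * (2 * m + 1)) (fun m => sg m * (2 * m + 1)) tri tri tri_bound tri_bound
    hasSum_two_T1 hasSum_two_T1

/-- the lattice map -/
def gm (r : Fin 2) (p : ℤ × ℤ) : ℤ × ℤ :=
  (p.1 + p.2, if r = 0 then p.1 - p.2 else -(p.1 - p.2 + 1))

theorem gm_bij : Function.Bijective (fun q : Fin 2 × (ℤ × ℤ) => gm q.1 q.2) := by
  constructor
  · rintro ⟨r, a, b⟩ ⟨r', a', b'⟩ h
    simp only [gm, Prod.mk.injEq] at h
    obtain ⟨h0, h1⟩ := h
    have h3 : r = r' := by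
      fin_cases r <;> fin_cases r' <;> simp at h1 ⊢ <;> omega
    subst h3
    have h4 : a = a' ∧ b = b' := by
      fin_cases r <;> simp at h1 <;> constructor <;> omega
    rw [h4.1, h4.2]
  · rintro ⟨m, n⟩
    by_cases h : (m + n) % 2 = 0
    · refine ⟨(0, ((m + n) / 2, m - (m + n) / 2)), ?_⟩
      simp only [gm, Prod.mk.injEq, if_true]
      constructor <;> omega
    · refine ⟨(1, ((m - 1 - n) / 2, m - (m - 1 - n) / 2)), ?_⟩
      simp only [gm, Prod.mk.injEq, show ((1 : Fin 2) = 0) = False by simp, if_false]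
      constructor <;> omega

/-- exponents `k² + k` -/
def ek (k : ℤ) : ℕ := 2 * tri k

theorem ek_cast (k : ℤ) : (ek k : ℤ) = k * (k + 1) := by
  unfold ek
  rw [← two_tri]
  push_cast
  ring

theorem ek_bound (k : ℤ) : k.natAbs ≤ ek k + 1 := by
  have := tri_bound k
  unfold ek
  omega

theorem tri_sum (k l : ℤ) : tri (k + l) + tri (k - l) = ek k + l.natAbs ^ 2 := by
  have h1 := two_tri (k + l)
  have h2 := two_tri (k - l)
  have h3 := ek_cast k
  have h4 : ((l.natAbs ^ 2 : ℕ) : ℤ) = l ^ 2 := by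
    rw [Nat.cast_pow, Int.natCast_natAbs, sq_abs]
  have : (2 * (tri (k + l) + tri (k - l) : ℕ) : ℤ) = 2 * ((ek k + l.natAbs ^ 2 : ℕ) : ℤ) := by
    rw [Nat.cast_add, Nat.cast_add, h4, h3, mul_add, h1, h2]
    ring
  omega

theorem sg_sq (k : ℤ) : sg k * sg k = 1 := by
  unfold sg
  split_ifs <;> rfl

theorem sg_pair (k l : ℤ) : sg (k + l) * sg (k - l) = 1 := by
  rw [sg_add, sub_eq_add_neg, sg_add, sg_neg]
  have h1 := sg_sq k
  have h2 := sg_sq l
  calc sg k * sg l * (sg k * sg l) = (sg k * sg k) * (sg l * sg l) := by ring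
    _ = 1 := by rw [h1, h2]; rfl

theorem F_gm (r : Fin 2) (k l : ℤ) : F (gm r (k, l)) =
    monomial (ek k + l.natAbs ^ 2) ((2 * k + 1) ^ 2 - 4 * l ^ 2) := by
  have hs := sg_pair k l
  fin_cases r
  · unfold F gm
    simp only [Fin.zero_eta, if_true]
    rw [tri_sum]
    congr 1
    calc sg (k + l) * (2 * (k + l) + 1) * (sg (k - l) * (2 * (k - l) + 1)) =
        (sg (k + l) * sg (k - l)) * ((2 * (k + l) + 1) * (2 * (k - l) + 1)) := by ring
      _ = _ := by rw [hs]; ring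
  · unfold F gm
    simp only [Fin.mk_one, show ((1 : Fin 2) = 0) = False by simp, if_false]
    rw [tri_neg, tri_sum]
    congr 1
    rw [sg_neg, sg_add (k - l) 1, show sg 1 = -1 by decide]
    calc sg (k + l) * (2 * (k + l) + 1) * (sg (k - l) * -1 * (2 * -(k - l + 1) + 1)) =
        (sg (k + l) * sg (k - l)) * ((2 * (k + l) + 1) * (2 * (k - l) + 1)) := by ring
      _ = _ := by rw [hs]; ring

theorem hasSum_phiP : HasSum (fun i : ℤ => (monomial (i.natAbs ^ 2) 1 : ℤ⟦X⟧))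
    Pool.Agent.Q107.PP.phiP :=
  (summable_monomial (fun _ => 1) _ (finite_of_bound _ sq_bound)).hasSum

theorem th_eq (f : ℤ⟦X⟧) : Pool.Agent.Q107.PP.th f = th f := rfl

theorem hasSum_th_phiP : HasSum (fun i : ℤ => (monomial (i.natAbs ^ 2) (i ^ 2) : ℤ⟦X⟧))
    (th Pool.Agent.Q107.PP.phiP) := by
  have h := hasSum_phiP.map thHom continuous_th
  have e : (fun i : ℤ => (monomial (i.natAbs ^ 2) (i ^ 2) : ℤ⟦X⟧)) =
      thHom ∘ fun i : ℤ => (monomial (i.natAbs ^ 2) 1 : ℤ⟦X⟧) := by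
    funext i
    show _ = th _
    rw [th_monomial]
    congr 1
    rw [Nat.cast_pow, Int.natCast_natAbs, sq_abs]
    ring
  rw [e]
  exact h

theorem hasSum_psiZ : HasSum (fun m : ℤ => (monomial (tri m) 1 : ℤ⟦X⟧))
    (2 * Pool.Agent.Q107.PP.psi) := by
  have h := (summable_monomial (fun _ : ℤ => 1) _ (finite_of_bound _ tri_bound)).hasSum
  have hn : HasSum (fun n : ℕ => (monomial (tri (n : ℤ)) 1 : ℤ⟦X⟧)) Pool.Agent.Q107.PP.psi := by
    refine (summable_monomial (fun _ : ℕ => 1) (fun n : ℕ => tri (n : ℤ)) fun n => ?_).hasSum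
    refine ((finite_of_bound _ tri_bound n).preimage (f := ((↑) : ℕ → ℤ))
      Nat.cast_injective.injOn).subset ?_
    intro i hi
    exact hi
  have h2 := hn.of_nat_of_neg_add_one (f := fun m : ℤ => (monomial (tri m) 1 : ℤ⟦X⟧))
    (m' := Pool.Agent.Q107.PP.psi) (by
      simp only [tri_neg]
      exact hn)
  rw [two_mul]
  exact h2

theorem hasSum_psi2 : HasSum (fun m : ℤ => (monomial (ek m) 1 : ℤ⟦X⟧))
    (2 * Pool.Agent.Q107.PP.psi2) := by
  have h := hasSum_psiZ.map (expand (R := ℤ) 2 two_ne_zero) (continuous_expand 2 two_ne_zero)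
  have e : (fun m : ℤ => (monomial (ek m) 1 : ℤ⟦X⟧)) = (expand (R := ℤ) 2 two_ne_zero) ∘
      fun m : ℤ => (monomial (tri m) 1 : ℤ⟦X⟧) := by
    funext m
    simp [ek]
  rw [e]
  have e2 : (2 * Pool.Agent.Q107.PP.psi2) =
      (expand (R := ℤ) 2 two_ne_zero) (2 * Pool.Agent.Q107.PP.psi) := by
    rw [map_mul, map_ofNat]
    rfl
  rw [e2]
  exact h

theorem hasSum_psi2' : HasSum (fun k : ℤ => (monomial (ek k) ((2 * k + 1) ^ 2) : ℤ⟦X⟧))
    (2 * (Pool.Agent.Q107.PP.psi2 + 4 * th Pool.Agent.Q107.PP.psi2)) := by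
  have h1 := (hasSum_psi2.map thHom continuous_th).mul_left 4
  have h := hasSum_psi2.add h1
  have e : (fun k : ℤ => (monomial (ek k) ((2 * k + 1) ^ 2) : ℤ⟦X⟧)) =
      fun k : ℤ => (monomial (ek k) 1 : ℤ⟦X⟧) +
        4 * (thHom ∘ fun m : ℤ => (monomial (ek m) 1 : ℤ⟦X⟧)) k := by
    funext k
    show _ = monomial (ek k) 1 + 4 * th (monomial (ek k) 1)
    have h4 : (4 : ℤ⟦X⟧) = C 4 := by rw [map_ofNat]
    rw [th_monomial, h4, ← smul_eq_C_mul, ← map_smul, ← map_add]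
    congr 1
    rw [ek_cast]
    simp only [smul_eq_mul]
    ring
  rw [e]
  have e2 : 2 * (Pool.Agent.Q107.PP.psi2 + 4 * th Pool.Agent.Q107.PP.psi2) =
      2 * Pool.Agent.Q107.PP.psi2 + 4 * thHom (2 * Pool.Agent.Q107.PP.psi2) := by
    show _ = _ + 4 * th (2 * Pool.Agent.Q107.PP.psi2)
    rw [th_two_mul]
    ring
  rw [e2]
  exact h

theorem hasSum_W : HasSum (fun p : ℤ × ℤ => (monomial (ek p.1 + p.2.natAbs ^ 2)
    ((2 * p.1 + 1) ^ 2 - 4 * p.2 ^ 2) : ℤ⟦X⟧))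
    (2 * (Pool.Agent.Q107.PP.psi2 + 4 * th Pool.Agent.Q107.PP.psi2) * Pool.Agent.Q107.PP.phiP -
      4 * (2 * Pool.Agent.Q107.PP.psi2 * th Pool.Agent.Q107.PP.phiP)) := by
  have h1 := hasSum_mul (fun k => (2 * k + 1) ^ 2) (fun _ => 1) ek (fun i => i.natAbs ^ 2)
    ek_bound sq_bound hasSum_psi2' hasSum_phiP
  have h2 := hasSum_mul (fun _ => 1) (fun i => i ^ 2) ek (fun i => i.natAbs ^ 2)
    ek_bound sq_bound hasSum_psi2 hasSum_th_phiP
  have h := h1.sub (h2.mul_left 4)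
  have e : (fun p : ℤ × ℤ => (monomial (ek p.1 + p.2.natAbs ^ 2)
      ((2 * p.1 + 1) ^ 2 - 4 * p.2 ^ 2) : ℤ⟦X⟧)) = fun b =>
      (monomial (ek b.1 + b.2.natAbs ^ 2)) ((2 * b.1 + 1) ^ 2 * 1) -
        4 * (monomial (ek b.1 + b.2.natAbs ^ 2)) (1 * b.2 ^ 2) := by
    funext p
    have h4 : (4 : ℤ⟦X⟧) = C 4 := by rw [map_ofNat]
    rw [h4, ← smul_eq_C_mul, ← map_smul, ← map_sub]
    congr 1
    simp only [smul_eq_mul]
    ring
  rw [e]
  exact h

theorem main : Pool.Agent.Q107.PP.TaskF3a := by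
  have h1 := (Equiv.ofBijective _ gm_bij).hasSum_iff (f := F) |>.2 hasSum_F
  have hF : HasSum (fun q : Fin 2 × (ℤ × ℤ) => F (gm q.1 q.2)) (2 * T1 * (2 * T1)) := h1
  have h2 := hF.prod_fiberwise (g := fun _ => 2 * (Pool.Agent.Q107.PP.psi2 +
    4 * th Pool.Agent.Q107.PP.psi2) * Pool.Agent.Q107.PP.phiP -
      4 * (2 * Pool.Agent.Q107.PP.psi2 * th Pool.Agent.Q107.PP.phiP)) (fun r => by
        have e : (fun c : ℤ × ℤ => F (gm r c)) = fun p : ℤ × ℤ =>
            (monomial (ek p.1 + p.2.natAbs ^ 2) ((2 * p.1 + 1) ^ 2 - 4 * p.2 ^ 2) : ℤ⟦X⟧) :=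
          funext fun p => F_gm r p.1 p.2
        show HasSum (fun c : ℤ × ℤ => F (gm r c)) _
        rw [e]
        exact hasSum_W)
  have h3 := (hasSum_fintype _).unique h2
  rw [Fin.sum_univ_two] at h3
  show T1 ^ 2 = Pool.Agent.Q107.PP.phiP * (Pool.Agent.Q107.PP.psi2 +
    4 * th Pool.Agent.Q107.PP.psi2) - 4 * Pool.Agent.Q107.PP.psi2 * th Pool.Agent.Q107.PP.phiP
  have h5 : (4 : ℤ⟦X⟧) ≠ 0 := by
    intro h
    have := congrArg (constantCoeff (R := ℤ)) h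
    rw [map_ofNat, map_zero] at this
    norm_num at this
  refine mul_left_cancel₀ h5 ?_
  linear_combination (-1 : ℤ⟦X⟧) * h3

end Pool.Agent.PP107.TaskF3a
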