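import Pool.Agent.Q107.PP.Stmts

set_option autoImplicit false

namespace Pool.Agent.PP107.TaskF3b

open Finset PowerSeries Filter Topology
open scoped PowerSeries.WithPiTopology
open Pool.Agent.Q107.OD Pool.Agent.Q107.PP

/-- `m q^m / (1 - q^m)` -/
noncomputable def g (m : ℕ) : ℤ⟦X⟧ := PowerSeries.mk fun n => if m ∣ n ∧ n ≠ 0 then (m : ℤ) else 0

theorem coeff_th (f : ℤ⟦X⟧) (n : ℕ) : coeff n (th f) = n * coeff n f := by
  unfold th
  cases n with
  | zero => simp
  | succ n =>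
    rw [coeff_succ_X_mul, coeff_derivative]
    push_cast
    ring

theorem th_mul (f h : ℤ⟦X⟧) : th (f * h) = th f * h + f * th h := by
  unfold th
  rw [Derivation.leibniz]
  simp only [smul_eq_mul]
  ring

theorem g_spec (m : ℕ) (hm : 0 < m) :
    (1 - X ^ m : ℤ⟦X⟧) * g m = (m : ℤ⟦X⟧) * (X : ℤ⟦X⟧) ^ m := by
  ext n
  rw [sub_mul, one_mul, map_sub, coeff_X_pow_mul']
  have e : coeff n ((m : ℤ⟦X⟧) * X ^ m) = if n = m then (m : ℤ) else 0 := by
    have : ((m : ℤ⟦X⟧) * X ^ m) = C (m : ℤ) * X ^ m := by simp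
    rw [this, coeff_C_mul, coeff_X_pow]
    split_ifs <;> simp
  rw [e]
  unfold g
  simp only [coeff_mk]
  by_cases h1 : m ≤ n
  · rw [if_pos h1]
    obtain ⟨k, rfl⟩ := Nat.exists_eq_add_of_le h1
    simp only [Nat.add_sub_cancel_left]
    by_cases h2 : k = 0
    · subst h2
      simp
      intro h; omega
    · have h3 : (m ∣ m + k) ↔ m ∣ k := (Nat.dvd_add_right (dvd_refl m))
      have h4 : ¬ (m + k = m) := by omega
      rw [if_neg h4]
      have h5 : m + k ≠ 0 := by omega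
      simp [h3, h2, h5]
  · rw [if_neg h1]
    have h2 : ¬ (m ∣ n ∧ n ≠ 0) := by
      rintro ⟨h3, h4⟩
      exact h1 (Nat.le_of_dvd (by omega) h3)
    have h3 : n ≠ m := by omega
    rw [if_neg h2, if_neg h3]
    simp

theorem th_one_sub (m : ℕ) (hm : 0 < m) : th (1 - X ^ m : ℤ⟦X⟧) = -((1 - X ^ m) * g m) := by
  rw [g_spec m hm]
  ext n
  rw [coeff_th]
  have e : coeff n ((m : ℤ⟦X⟧) * X ^ m) = if n = m then (m : ℤ) else 0 := by
    have : ((m : ℤ⟦X⟧) * X ^ m) = C (m : ℤ) * X ^ m := by simp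
    rw [this, coeff_C_mul, coeff_X_pow]
    split_ifs <;> simp
  rw [map_neg, e, map_sub, coeff_X_pow, coeff_one]
  by_cases h1 : n = 0
  · subst h1
    have : ¬ (0 = m) := by omega
    simp [this]
  · rw [if_neg h1]
    by_cases h2 : n = m
    · subst h2; simp
    · simp [h2]

theorem th_P (n : ℕ) : th (P (X : ℤ⟦X⟧) n) = -(P (X : ℤ⟦X⟧) n * ∑ j ∈ range n, g (j + 1)) := by
  induction n with
  | zero =>
    simp only [P, range_zero, prod_empty, sum_empty, mul_zero, neg_zero]
    ext n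
    rw [coeff_th, coeff_one]
    by_cases h : n = 0
    · simp [h]
    · simp [h]
  | succ n ih =>
    rw [P_succ, th_mul, ih, th_one_sub _ (by omega), sum_range_succ]
    ring

theorem continuous_th : Continuous th := by
  rw [continuous_iff_continuousAt]
  intro f
  unfold ContinuousAt
  rw [WithPiTopology.tendsto_iff_coeff_tendsto]
  intro d
  simp only [coeff_th]
  exact ((WithPiTopology.continuous_coeff ℤ d).tendsto f).const_mul _

theorem tendsto_S : Tendsto (fun n => ∑ j ∈ range n, g (j + 1)) atTop (𝓝 S) := by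
  rw [WithPiTopology.tendsto_iff_coeff_tendsto]
  intro d
  refine tendsto_nhds_of_eventually_eq ?_
  filter_upwards [eventually_ge_atTop d] with n hn
  rw [map_sum]
  unfold S g
  simp only [coeff_mk]
  rw [← sum_filter, sum_subset_zero_on_sdiff
    (s₁ := (range n).filter fun j => (j + 1) ∣ d ∧ d ≠ 0)
    (s₂ := (range n).filter fun j => (j + 1) ∣ d ∧ d ≠ 0) (f := fun j => (((j + 1 : ℕ)) : ℤ))
    (g := fun j => (((j + 1 : ℕ)) : ℤ)) (Subset.refl _) (by simp) (by intros; rfl)]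
  refine sum_bij (fun j _ => j + 1) ?_ ?_ ?_ ?_
  · intro j hj
    rw [mem_filter] at hj
    rw [Nat.mem_divisors]
    exact hj.2
  · intro a _ b _ h
    omega
  · intro b hb
    rw [Nat.mem_divisors] at hb
    have hb0 : b ≠ 0 := by
      rintro rfl
      exact hb.2 (Nat.eq_zero_of_zero_dvd hb.1)
    have hbd : b ≤ d := Nat.le_of_dvd (by omega) hb.1
    refine ⟨b - 1, ?_, by omega⟩
    rw [mem_filter, mem_range]
    have : b - 1 + 1 = b := by omega
    rw [this]
    exact ⟨by omega, hb⟩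
  · intro j _
    rfl

theorem main : TaskF3b := by
  unfold Pool.Agent.Q107.PP.TaskF3b
  have h1 : Tendsto (fun n => th (P (X : ℤ⟦X⟧) n)) atTop (𝓝 (th E1)) :=
    (continuous_th.tendsto _).comp tendsto_P
  have h2 : Tendsto (fun n => -(P (X : ℤ⟦X⟧) n * ∑ j ∈ range n, g (j + 1))) atTop
      (𝓝 (-(E1 * S))) := (tendsto_P.mul tendsto_S).neg
  refine tendsto_nhds_unique h1 (h2.congr fun n => ?_)
  rw [th_P]

end Pool.Agent.PP107.TaskF3b
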