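import Pool.Agent.Q107.PP.Stmts

set_option autoImplicit false

namespace Pool.Agent.PP107.TaskF3c

open Finset PowerSeries
open Pool.Agent.Q107.PP

lemma s1 (n : ℕ) (hn : 0 < n) : ∑ d ∈ n.divisors, (if 2 ∣ d then (d : ℤ) else 0) =
    if 2 ∣ n then 2 * ∑ d ∈ (n / 2).divisors, (d : ℤ) else 0 := by
  rw [← Finset.sum_filter]
  split_ifs with h
  · obtain ⟨m, rfl⟩ := h
    have hm : 0 < m := by omega
    have e : (2 * m).divisors.filter (fun d => 2 ∣ d) = m.divisors.image (fun d => 2 * d) := by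
      ext d
      rw [mem_filter, Nat.mem_divisors, mem_image]
      constructor
      · rintro ⟨⟨h1, h2⟩, c, rfl⟩
        exact ⟨c, Nat.mem_divisors.2 ⟨Nat.dvd_of_mul_dvd_mul_left (by norm_num) h1, by omega⟩, rfl⟩
      · rintro ⟨c, hc, rfl⟩
        rw [Nat.mem_divisors] at hc
        exact ⟨⟨Nat.mul_dvd_mul_left 2 hc.1, by omega⟩, ⟨c, rfl⟩⟩
    rw [e, Finset.sum_image (fun a _ b _ h => by simpa using h), Nat.mul_div_cancel_left _ (by norm_num),
      Finset.mul_sum]
    refine Finset.sum_congr rfl fun d _ => ?_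
    push_cast
    ring
  · rw [Finset.sum_eq_zero]
    intro d hd
    rw [mem_filter, Nat.mem_divisors] at hd
    exact absurd (hd.2.trans hd.1.1) h

lemma s2 (n : ℕ) (hn : 0 < n) : ∑ d ∈ n.divisors, (if 2 ∣ n / d then (d : ℤ) else 0) =
    if 2 ∣ n then ∑ d ∈ (n / 2).divisors, (d : ℤ) else 0 := by
  rw [← Finset.sum_filter]
  split_ifs with h
  · obtain ⟨m, rfl⟩ := h
    have hm : 0 < m := by omega
    have e : (2 * m).divisors.filter (fun d => 2 ∣ 2 * m / d) = m.divisors := by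
      ext d
      rw [mem_filter, Nat.mem_divisors, Nat.mem_divisors]
      constructor
      · rintro ⟨⟨h1, h2⟩, c, hc⟩
        refine ⟨⟨c, ?_⟩, by omega⟩
        have h3 := Nat.mul_div_cancel' h1
        rw [hc] at h3
        have h4 : d * (2 * c) = 2 * (d * c) := by ring
        omega
      · rintro ⟨⟨c, hc⟩, h2⟩
        have hd : 0 < d := Nat.pos_of_ne_zero (by rintro rfl; simp at hc; omega)
        refine ⟨⟨⟨2 * c, by rw [hc]; ring⟩, by omega⟩, ⟨c, ?_⟩⟩
        have h4 : 2 * m = d * (2 * c) := by rw [hc]; ring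
        rw [h4, Nat.mul_div_cancel_left _ hd]
    rw [e, Nat.mul_div_cancel_left _ (by norm_num)]
  · rw [Finset.sum_eq_zero]
    intro d hd
    rw [mem_filter, Nat.mem_divisors] at hd
    exact absurd (hd.2.trans (Nat.div_dvd_of_dvd hd.1.1)) h

lemma s3 (n : ℕ) (hn : 0 < n) : ∑ d ∈ n.divisors, (if 2 ∣ d ∧ 2 ∣ n / d then (d : ℤ) else 0) =
    if 4 ∣ n then 2 * ∑ d ∈ (n / 4).divisors, (d : ℤ) else 0 := by
  rw [← Finset.sum_filter]
  split_ifs with h
  · obtain ⟨m, rfl⟩ := h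
    have hm : 0 < m := by omega
    have e : (4 * m).divisors.filter (fun d => 2 ∣ d ∧ 2 ∣ 4 * m / d) = m.divisors.image (fun d => 2 * d) := by
      ext d
      rw [mem_filter, Nat.mem_divisors, mem_image]
      constructor
      · rintro ⟨⟨h1, h2⟩, ⟨c, rfl⟩, c', hc'⟩
        refine ⟨c, Nat.mem_divisors.2 ⟨⟨c', ?_⟩, by omega⟩, rfl⟩
        have h3 := Nat.mul_div_cancel' h1
        rw [hc'] at h3
        have h4 : 2 * c * (2 * c') = 4 * (c * c') := by ring
        omega
      · rintro ⟨c, hc, rfl⟩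
        rw [Nat.mem_divisors] at hc
        obtain ⟨⟨c', hc'⟩, h2⟩ := hc
        have hd : 0 < c := Nat.pos_of_ne_zero (by rintro rfl; simp at hc'; omega)
        refine ⟨⟨⟨2 * c', by rw [hc']; ring⟩, by omega⟩, ⟨c, rfl⟩, ⟨c', ?_⟩⟩
        have h4 : 4 * m = 2 * c * (2 * c') := by rw [hc']; ring
        rw [h4, Nat.mul_div_cancel_left _ (by omega)]
    rw [e, Finset.sum_image (fun a _ b _ h => by simpa using h), Nat.mul_div_cancel_left _ (by norm_num),
      Finset.mul_sum]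
    refine Finset.sum_congr rfl fun d _ => ?_
    push_cast
    ring
  · rw [Finset.sum_eq_zero]
    intro d hd
    rw [mem_filter, Nat.mem_divisors] at hd
    obtain ⟨⟨h1, h2⟩, ⟨c, rfl⟩, c', hc'⟩ := hd
    exfalso
    apply h
    refine ⟨c * c', ?_⟩
    have h3 := Nat.mul_div_cancel' h1
    rw [hc'] at h3
    rw [← h3]
    ring

lemma sgn (d : ℕ) : (-1 : ℤ) ^ d = 2 * (if 2 ∣ d then 1 else 0) - 1 := by
  split_ifs with h
  · rw [Even.neg_one_pow (even_iff_two_dvd.2 h)]
    norm_num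
  · rw [Odd.neg_one_pow (Nat.not_even_iff_odd.1 (fun h' => h (even_iff_two_dvd.1 h')))]
    norm_num

theorem main : Pool.Agent.Q107.PP.TaskF3c := by
  unfold Pool.Agent.Q107.PP.TaskF3c
  ext n
  rw [map_add, map_sub]
  have e6 : coeff n (6 * expand 2 (by norm_num) S) = 6 * coeff n (expand 2 (by norm_num) S) := by
    have : (6 : ℤ⟦X⟧) = C 6 := rfl
    rw [this, coeff_C_mul]
  have e8 : coeff n (8 * expand 4 (by norm_num) S) = 8 * coeff n (expand 4 (by norm_num) S) := by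
    have : (8 : ℤ⟦X⟧) = C 8 := rfl
    rw [this, coeff_C_mul]
  rw [e6, e8, coeff_expand, coeff_expand]
  unfold L S
  simp only [coeff_mk]
  rcases Nat.eq_zero_or_pos n with h0 | hn
  · subst h0
    simp
  have h : ∀ d ∈ n.divisors, (-1 : ℤ) ^ (d + n / d) * (d : ℤ) =
      (d : ℤ) - 2 * (if 2 ∣ d then (d : ℤ) else 0) - 2 * (if 2 ∣ n / d then (d : ℤ) else 0) +
        4 * (if 2 ∣ d ∧ 2 ∣ n / d then (d : ℤ) else 0) := by
    intro d _
    rw [pow_add, sgn, sgn]
    by_cases h1 : 2 ∣ d <;> by_cases h2 : 2 ∣ n / d <;> simp only [h1, h2, if_true, if_false, and_self,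
      and_true, true_and, and_false, false_and] <;> ring
  rw [Finset.sum_congr rfl h, Finset.sum_add_distrib, Finset.sum_sub_distrib, Finset.sum_sub_distrib,
    ← Finset.mul_sum, ← Finset.mul_sum, ← Finset.mul_sum, s1 n hn, s2 n hn, s3 n hn]
  split_ifs <;> ring

end Pool.Agent.PP107.TaskF3c
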