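import Pool.Agent.Q107.PP.Stmts

set_option autoImplicit false

namespace Pool.Agent.PP107.TaskF3d

open Finset PowerSeries Filter Topology
open scoped PowerSeries.WithPiTopology
open Pool.Agent.Q107.OD Pool.Agent.Q107.PP

/-- the substitution `q ↦ -q` -/
noncomputable def rs : ℤ⟦X⟧ →+* ℤ⟦X⟧ := rescale (-1 : ℤ)

theorem continuous_rs : Continuous rs := by
  rw [continuous_iff_continuousAt]
  intro f
  unfold ContinuousAt
  rw [WithPiTopology.tendsto_iff_coeff_tendsto]
  intro d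
  simp only [rs, coeff_rescale]
  exact tendsto_const_nhds.mul ((WithPiTopology.continuous_coeff ℤ _).tendsto f)

theorem rs_monomial (n : ℕ) (c : ℤ) : rs (monomial n c) = monomial n ((-1) ^ n * c) := by
  ext d
  rw [rs, coeff_rescale, coeff_monomial, coeff_monomial]
  split_ifs with h
  · rw [h]
  · rw [mul_zero]

theorem rs_X_pow (n : ℕ) : rs (X ^ n) = (-X) ^ n := by
  rw [map_pow, rs, rescale_X]
  simp

theorem rs_phi : rs phi = phiP := by
  have h := hasSum_phi'.map rs continuous_rs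
  have e : (rs ∘ fun i : ℤ => (monomial (i.natAbs ^ 2) (sg i) : ℤ⟦X⟧)) =
      fun i : ℤ => monomial (i.natAbs ^ 2) 1 := by
    funext i
    rw [Function.comp_apply, rs_monomial]
    congr 1
    rw [← sg_natAbs, ← pow_add]
    refine Even.neg_one_pow ?_
    rw [sq, show i.natAbs * i.natAbs + i.natAbs = i.natAbs * (i.natAbs + 1) by ring]
    exact Nat.even_mul_succ_self _
  rw [e] at h
  exact h.tsum_eq.symm

theorem rs_E2 : rs E2 = E2 := by
  ext d
  rw [rs, coeff_rescale, E2, coeff_expand]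
  split_ifs with h
  · obtain ⟨k, rfl⟩ := h
    rw [pow_mul]
    simp
  · rw [mul_zero]

theorem hasProd_rs : HasProd (fun n => (1 - (-X) ^ (n + 1) : ℤ⟦X⟧)) (rs E1) := by
  have h := hasProd_E1.map rs continuous_rs
  have e : (rs ∘ fun n => (1 - X ^ (n + 1) : ℤ⟦X⟧)) = fun n => (1 - (-X) ^ (n + 1) : ℤ⟦X⟧) := by
    funext n
    rw [Function.comp_apply, map_sub, map_one, rs_X_pow]
  rw [e] at h
  exact h

theorem hasProd_E4 : HasProd (fun n => (1 - X ^ (4 * (n + 1)) : ℤ⟦X⟧)) E4 := by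
  have h : HasProd (fun n => expand (R := ℤ) 4 (by norm_num) (1 - X ^ (n + 1) : ℤ⟦X⟧)) E4 :=
    hasProd_E1.map (expand (R := ℤ) 4 (by norm_num)) (continuous_expand 4 (by norm_num))
  simpa [← pow_mul] using h

theorem multipliable_O : Multipliable (fun k => (1 - X ^ (2 * (2 * k + 1)) : ℤ⟦X⟧)) := by
  have h : Multipliable (fun k => (1 + -X ^ (2 * (2 * k + 1)) : ℤ⟦X⟧)) := by
    refine WithPiTopology.multipliable_one_add_of_tendsto_order_atTop_nhds_top ℤ ?_
    simp_rw [order_neg, order_X_pow]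
    refine ENat.tendsto_natCast_nhds_top.comp ?_
    exact tendsto_atTop_mono (fun n => by simp only [id]; omega) tendsto_id
  simpa [sub_eq_add_neg] using h

/-- `∏ (1 - q^(2k))` over the odd `k` -/
noncomputable def O : ℤ⟦X⟧ := ∏' k : ℕ, (1 - X ^ (2 * (2 * k + 1)) : ℤ⟦X⟧)

theorem hasProd_O : HasProd (fun k => (1 - X ^ (2 * (2 * k + 1)) : ℤ⟦X⟧)) O :=
  multipliable_O.hasProd

theorem E2_eq : O * E4 = E2 := by
  have h : HasProd (fun n => (1 - X ^ (2 * (n + 1)) : ℤ⟦X⟧)) (O * E4) := by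
    refine HasProd.even_mul_odd ?_ ?_
    · exact hasProd_O
    · convert hasProd_E4 using 4 with k
      ring
  exact h.unique hasProd_E2

theorem rs_mul : rs E1 * E1 = O * (E2 * E2) := by
  have h := hasProd_rs.mul hasProd_E1
  have h2 : HasProd (fun n => ((1 - (-X) ^ (n + 1)) * (1 - X ^ (n + 1)) : ℤ⟦X⟧))
      (O * (E2 * E2)) := by
    refine HasProd.even_mul_odd ?_ ?_
    · convert hasProd_O using 2 with k
      rw [neg_pow, pow_succ (-1 : ℤ⟦X⟧), pow_mul (-1 : ℤ⟦X⟧)]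
      ring
    · convert hasProd_E2.mul hasProd_E2 using 2 with k
      rw [neg_pow, show 2 * k + 1 + 1 = 2 * (k + 1) by ring, pow_mul (-1 : ℤ⟦X⟧)]
      ring
  exact h.unique h2

theorem E2_const : constantCoeff E2 = 1 := by
  have h := hasProd_E2.map (constantCoeff (R := ℤ)) (WithPiTopology.continuous_constantCoeff ℤ)
  have e : ((constantCoeff (R := ℤ)) ∘ fun n => (1 - X ^ (2 * (n + 1)) : ℤ⟦X⟧)) =
      fun _ => (1 : ℤ) := by
    funext n
    simp
  rw [e] at h
  exact h.unique hasProd_one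

theorem E2_ne : E2 ≠ 0 := by
  intro h
  have h1 := E2_const
  rw [h] at h1
  simp at h1

theorem main : Pool.Agent.Q107.PP.TaskF3d := by
  unfold Pool.Agent.Q107.PP.TaskF3d
  have h1 : rs E1 * rs E1 = E2 * phiP := by
    rw [← map_mul, gauss, map_mul, rs_E2, rs_phi]
  have h2 : rs E1 * E1 * E4 = E2 ^ 3 := by
    rw [rs_mul, ← E2_eq]
    ring
  have h3 : E2 * (phiP * E1 ^ 2 * E4 ^ 2) = E2 * E2 ^ 5 := by
    calc E2 * (phiP * E1 ^ 2 * E4 ^ 2) = (E2 * phiP) * (E1 * E4) ^ 2 := by ring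
      _ = (rs E1 * E1 * E4) ^ 2 := by rw [← h1]; ring
      _ = E2 * E2 ^ 5 := by rw [h2]; ring
  exact mul_left_cancel₀ E2_ne h3

end Pool.Agent.PP107.TaskF3d
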