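import Pool.Agent.PP107.DSeq

set_option autoImplicit false

namespace Pool.Agent.PP107.TaskF4

open Finset
open Pool.Agent.Q107.PP

lemma aux (s : Multiset ℕ) : (4 : ℤ) ∣ (s.map w).sum - (s.sum : ℕ) := by
  induction s using Multiset.induction_on with
  | empty => simp
  | cons a s ih =>
    rw [Multiset.map_cons, Multiset.sum_cons, Multiset.sum_cons]
    have h : (4 : ℤ) ∣ w a - a := by
      unfold w
      split_ifs with h
      · simp
      · rw [Nat.not_odd_iff_even] at h
        obtain ⟨b, rfl⟩ := h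
        refine ⟨-(b : ℤ), ?_⟩
        push_cast
        ring
    have h2 := dvd_add h ih
    have e : w a + (s.map w).sum - ((a + s.sum : ℕ) : ℤ) =
        w a - a + ((s.map w).sum - ((s.sum : ℕ) : ℤ)) := by
      rw [Nat.cast_add]; ring
    rw [e]
    exact h2

theorem main : Pool.Agent.Q107.PP.TaskF4 := by
  intro n
  rw [DS_eq]
  unfold Q
  have h : (∑ p ∈ Nat.Partition.distincts n, (p.parts.map w).sum) -
        (n : ℤ) * ((Nat.Partition.distincts n).card : ℤ) =
      ∑ p ∈ Nat.Partition.distincts n, ((p.parts.map w).sum - ((p.parts.sum : ℕ) : ℤ)) := by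
    rw [Finset.sum_sub_distrib, Finset.sum_congr rfl (fun p _ => by rw [p.parts_sum] :
      ∀ p ∈ Nat.Partition.distincts n, ((p.parts.sum : ℕ) : ℤ) = (n : ℤ)), Finset.sum_const, nsmul_eq_mul]
    ring
  rw [h]
  exact Finset.dvd_sum fun p _ => aux p.parts

end Pool.Agent.PP107.TaskF4
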