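import Pool.Agent.Q107.PP.Stmts

/-!
# Jacobi's triple product for integer power series (`TaskJTP` of MP_496c03_nt)
-/

set_option autoImplicit false

namespace Pool.Agent.PP107.TaskJTP

open Finset PowerSeries Filter Topology
open scoped PowerSeries.WithPiTopology
open Pool.Agent.Q107.OD Pool.Agent.Q107.PP

section fin

variable {R : Type*} [CommRing R]

/-- Gaussian binomials -/
def Gb (q : R) : ℕ → ℕ → R
  | _, 0 => 1
  | 0, _ + 1 => 0
  | n + 1, k + 1 => Gb q n k + q ^ (k + 1) * Gb q n (k + 1)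

theorem Gb_zero_right (q : R) (n : ℕ) : Gb q n 0 = 1 := by cases n <;> rfl

theorem Gb_succ (q : R) (n k : ℕ) :
    Gb q (n + 1) (k + 1) = Gb q n k + q ^ (k + 1) * Gb q n (k + 1) := rfl

theorem Gb_lt (q : R) : ∀ (n k : ℕ), n < k → Gb q n k = 0
  | 0, k+1, _ => rfl
  | n+1, k+1, h => by rw [Gb_succ, Gb_lt q n k (by omega), Gb_lt q n (k+1) (by omega)]; ring

theorem Gb_mul (q : R) : ∀ n k l : ℕ, k + l = n → Gb q n k * P q k * P q l = P q n := by
  intro n
  induction n with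
  | zero =>
    intro k l h
    obtain ⟨rfl, rfl⟩ : k = 0 ∧ l = 0 := by omega
    simp [Gb, P]
  | succ n ih =>
    intro k l h
    rcases k with _ | k
    · obtain rfl : l = n + 1 := by omega
      rw [Gb_zero_right]
      simp [P]
    · rw [Gb_succ]
      rcases l with _ | l
      · obtain rfl : k = n := by omega
        have h1 := ih k 0 (by omega)
        rw [Gb_lt q k (k+1) (by omega), P_succ]
        linear_combination (1 - q^(k+1)) * h1
      · have h1 := ih k (l+1) (by omega)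
        have h2 := ih (k+1) l (by omega)
        rw [P_succ q k] at h2
        rw [P_succ q l] at h1
        rw [P_succ q k, P_succ q n, P_succ q l]
        have e : q^(n+1) = q^(k+1) * q^(l+1) := by rw [← pow_add]; congr 1; omega
        rw [e]
        linear_combination (1 - q^(k+1)) * h1 + q^(k+1) * (1 - q^(l+1)) * h2

theorem qbinom (q : R) : ∀ (n : ℕ) (x y : R), ∏ j ∈ range n, (y + x * q ^ j) =
    ∑ k ∈ range (n + 1), q ^ (k.choose 2) * Gb q n k * x ^ k * y ^ (n - k) := by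
  intro n
  induction n with
  | zero => intro x y; simp [Gb]
  | succ n ih =>
    intro x y
    rw [prod_range_succ']
    have e : ∏ j ∈ range n, (y + x * q ^ (j + 1)) = ∏ j ∈ range n, (y + (x * q) * q ^ j) :=
      prod_congr rfl fun j _ => by ring
    rw [e, ih, sum_range_succ' _ (n+1)]
    set Sg := ∑ k ∈ range (n + 1), q ^ (k.choose 2) * Gb q n k * (x * q) ^ k * y ^ (n - k) with hSg
    have h3 : Sg = ∑ k ∈ range n, (q ^ ((k+1).choose 2) * Gb q n (k+1) * (x*q) ^ (k+1) *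
        y ^ (n - (k+1))) + y ^ n := by
      rw [hSg, sum_range_succ']
      simp [Gb_zero_right]
    have h1 : ∑ k ∈ range (n + 1), q ^ ((k+1).choose 2) * Gb q (n+1) (k+1) * x ^ (k+1) *
        y ^ (n + 1 - (k+1)) = x * Sg + ∑ k ∈ range n, y * (q ^ ((k+1).choose 2) *
          Gb q n (k+1) * (x*q) ^ (k+1) * y ^ (n - (k+1))) := by
      rw [hSg, mul_sum]
      have h2 : ∑ k ∈ range n, y * (q ^ ((k+1).choose 2) *
          Gb q n (k+1) * (x*q) ^ (k+1) * y ^ (n - (k+1))) =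
          ∑ k ∈ range (n+1), q ^ ((k+1).choose 2) * (q^(k+1) * Gb q n (k+1)) * x ^ (k+1) *
            y ^ (n - k) := by
        rw [sum_range_succ _ n, Gb_lt q n (n+1) (by omega)]
        simp only [mul_zero, zero_mul, add_zero]
        refine sum_congr rfl fun k hk => ?_
        have : y ^ (n - k) = y * y ^ (n - (k+1)) := by
          rw [← pow_succ']; congr 1; have := mem_range.1 hk; omega
        rw [this]; ring
      rw [h2, ← sum_add_distrib]
      refine sum_congr rfl fun k _ => ?_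
      have e3 : (k+1).choose 2 = k.choose 2 + k := by
        rw [Nat.choose_succ_succ' k 1, Nat.choose_one_right, add_comm]
      rw [Gb_succ, Nat.add_sub_add_right, e3]
      ring
    rw [h1, ← mul_sum, Gb_zero_right]
    have h4 : Nat.choose 0 2 = 0 := rfl
    rw [h4]
    simp only [pow_zero, mul_one, one_mul, Nat.sub_zero]
    linear_combination y * h3

theorem prodeq (z w q : R) (hq : q = z * w) (N : ℕ) :
    ∏ j ∈ range (N + N), (q ^ N + (-z) * q ^ j) =
      (-1)^N * z^N * q^(N.choose 2) * q^(N*N) *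
        ((∏ j ∈ range N, (1 - z * q^j)) * ∏ j ∈ range N, (1 - w * q^j)) := by
  rw [prod_range_add]
  have h1 : ∏ j ∈ range N, (q^N + (-z) * q^j) =
      (-1)^N * z^N * q^(N.choose 2) * ∏ j ∈ range N, (1 - w * q^j) := by
    rw [← prod_range_reflect (fun j => 1 - w * q^j)]
    have h3 : ∀ M : ℕ, (-1)^M * z^M * q^(M.choose 2) = ∏ j ∈ range M, ((-z) * q^j) := by
      intro M
      induction M with
      | zero => simp
      | succ M ih =>
        rw [prod_range_succ, ← ih, Nat.choose_succ_succ' M 1, Nat.choose_one_right]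
        ring
    rw [h3 N, ← prod_mul_distrib]
    refine prod_congr rfl fun j hj => ?_
    have hj' := mem_range.1 hj
    have e : q^N = z * q^j * (w * q^(N-1-j)) := by
      have : q^N = q * q^j * q^(N-1-j) := by
        rw [← pow_succ', ← pow_add]; congr 1; omega
      rw [this]
      nth_rewrite 1 [hq]
      ring
    rw [e]; ring
  have h2 : ∏ j ∈ range N, (q^N + (-z) * q^(N+j)) =
      q^(N*N) * ∏ j ∈ range N, (1 - z * q^j) := by
    rw [show q^(N*N) = ∏ j ∈ range N, q^N by simp [← pow_mul], ← prod_mul_distrib]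
    refine prod_congr rfl fun j _ => ?_
    rw [pow_add]; ring
  rw [h1, h2]; ring

theorem Rr_dvd (q : R) (n s : ℕ) : q ^ (s + 1) ∣ Rr q n s - 1 := by
  unfold Rr
  refine Finset.prod_induction _ (fun x => q ^ (s+1) ∣ x - 1) ?_ ?_ ?_
  · intro x y hx hy
    have : x * y - 1 = (x - 1) * y + (y - 1) := by ring
    rw [this]
    exact dvd_add (hx.mul_right _) hy
  · simp
  · intro j hj
    have := (mem_Ico.1 hj).1
    have h : q ^ (s+1) ∣ q ^ (j+1) := pow_dvd_pow _ (by omega)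
    have e : (1 - q ^ (j+1)) - 1 = - q ^ (j+1) := by ring
    rw [e]
    exact (dvd_neg).2 h

theorem P_mul_Rr (q : R) (n s : ℕ) (h : s ≤ n) : P q s * Rr q n s = P q n := by
  unfold P Rr
  exact prod_range_mul_prod_Ico _ h

end fin

/-- the exponents -/
def ee (m a : ℕ) (i : ℤ) : ℕ := ((m : ℤ) * (i * (i - 1) / 2) + a * i).toNat

theorem half (i : ℤ) : 2 * (i * (i - 1) / 2) = i * (i - 1) := by
  refine Int.two_mul_ediv_two_of_even ?_
  have := Int.even_mul_succ_self (i - 1)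
  rw [sub_add_cancel] at this
  rwa [mul_comm]

theorem ee_cast (m a : ℕ) (h0 : 0 < a) (h : a < m) (i : ℤ) :
    (ee m a i : ℤ) = (m : ℤ) * (i * (i - 1) / 2) + a * i := by
  unfold ee
  rw [Int.toNat_of_nonneg]
  have h1 := half i
  set t := i * (i - 1) / 2 with ht
  have hm : (a : ℤ) + 1 ≤ m := by exact_mod_cast h
  have ha : (1 : ℤ) ≤ a := by exact_mod_cast h0
  rcases le_or_gt 0 i with hi | hi
  · have : 0 ≤ t := by
      rcases hi.eq_or_lt with h2 | h2
      · rw [← h2] at h1; omega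
      · nlinarith
    positivity
  · have h3 : -i ≤ t := by nlinarith
    have h4 : 0 ≤ t := by omega
    nlinarith [mul_le_mul_of_nonneg_right hm h4, mul_le_mul_of_nonneg_left h3 (by omega : (0:ℤ) ≤ a)]

theorem bound1 (m a : ℕ) (h0 : 0 < a) (h : a < m) (N k : ℕ) (hk : k ≤ N + N) :
    N + 1 ≤ ee m a ((k : ℤ) - N) + m * (k + 1) := by
  have h1 := ee_cast m a h0 h ((k : ℤ) - N)
  have h2 := half ((k : ℤ) - N)
  set i : ℤ := (k : ℤ) - N with hi
  set t := i * (i - 1) / 2 with ht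
  have hm : (a : ℤ) + 1 ≤ m := by exact_mod_cast h
  have ha : (1 : ℤ) ≤ a := by exact_mod_cast h0
  have hN : (0 : ℤ) ≤ N := by positivity
  have hk0 : (k : ℤ) = N + i := by omega
  zify
  rw [h1, hk0]
  rcases le_or_gt 0 i with h3 | h3
  · have h4 : 0 ≤ t := by
      rcases h3.eq_or_lt with h5 | h5
      · rw [← h5] at h2; omega
      · nlinarith
    have h5 : 0 ≤ (m : ℤ) * t := by positivity
    have h6 : 0 ≤ (a : ℤ) * i := by positivity
    have h7 : (N : ℤ) + i + 1 ≤ m * (N + i + 1) := by nlinarith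
    omega
  · -- l = -i ≥ 1
    have h4 : -i - 1 ≤ t + i := by nlinarith [mul_nonneg (by omega : (0:ℤ) ≤ -i - 1) (by omega : (0:ℤ) ≤ -i)]
    have h5 : 0 ≤ (m : ℤ) * (t + 2 * i + 1) := mul_nonneg (by positivity) (by omega)
    have h6 : 0 ≤ ((m : ℤ) - (a + 1)) * (N - i) := mul_nonneg (by omega) (by omega)
    have h7 : 0 ≤ (a : ℤ) * N := by positivity
    nlinarith

theorem bound2 (m a : ℕ) (h0 : 0 < a) (h : a < m) (N k : ℕ) (hk : k ≤ N + N) :
    N + 1 ≤ ee m a ((k : ℤ) - N) + m * (N + N - k + 1) := by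
  have h1 := ee_cast m a h0 h ((k : ℤ) - N)
  have h2 := half ((k : ℤ) - N)
  have h2' : 0 ≤ (ee m a ((k : ℤ) - N) : ℤ) := by positivity
  set i : ℤ := (k : ℤ) - N with hi
  set t := i * (i - 1) / 2 with ht
  have hm : (a : ℤ) + 1 ≤ m := by exact_mod_cast h
  have ha : (1 : ℤ) ≤ a := by exact_mod_cast h0
  have hN : (0 : ℤ) ≤ N := by positivity
  have hk0 : (k : ℤ) = N + i := by omega
  zify [hk]
  rw [hk0]
  rcases le_or_gt i 0 with h3 | h3
  · have h7 : (N : ℤ) + 1 ≤ m * (N + N - (N + i) + 1) := by nlinarith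
    omega
  · rw [h1]
    have h4 : 0 ≤ t - i + 1 := by
      nlinarith [mul_nonneg (by omega : (0:ℤ) ≤ i - 1) (by omega : (0:ℤ) ≤ i),
        mul_self_nonneg (2 * i - 3)]
    have h5 : 0 ≤ (m : ℤ) * (t - i + 1) := mul_nonneg (by positivity) (by omega)
    have h6 : (N : ℤ) ≤ (m : ℤ) * N := by nlinarith
    have h7 : 1 ≤ (a : ℤ) * i := by nlinarith
    nlinarith

theorem ee_bound (m a : ℕ) (h0 : 0 < a) (h : a < m) (i : ℤ) : i.natAbs ≤ ee m a i + 1 := by
  have h1 := ee_cast m a h0 h i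
  have h2 := half i
  set t := i * (i - 1) / 2 with ht
  have hm : (a : ℤ) + 1 ≤ m := by exact_mod_cast h
  have ha : (1 : ℤ) ≤ a := by exact_mod_cast h0
  zify
  rw [h1]
  rcases le_or_gt 0 i with h3 | h3
  · rw [abs_of_nonneg h3]
    have h4 : 0 ≤ t := by
      rcases h3.eq_or_lt with h5 | h5
      · rw [← h5] at h2; omega
      · nlinarith
    have h5 : 0 ≤ (m : ℤ) * t := by positivity
    nlinarith
  · rw [abs_of_neg h3]
    have h4 : -i ≤ t := by nlinarith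
    have h5 : 0 ≤ ((m : ℤ) - (a + 1)) * t := mul_nonneg (by omega) (by omega)
    have h6 : 0 ≤ (a : ℤ) * (t + i) := mul_nonneg (by omega) (by omega)
    nlinarith

theorem choose_cast (n : ℕ) : 2 * ((n.choose 2 : ℕ) : ℤ) = n * (n - 1) := by
  induction n with
  | zero => simp
  | succ n ih =>
    rw [Nat.choose_succ_succ' n 1, Nat.choose_one_right]
    push_cast
    linarith

theorem sg_sub (k N : ℕ) : (C (sg ((k : ℤ) - N)) : ℤ⟦X⟧) = (-1) ^ k * (-1) ^ N := by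
  rw [sub_eq_add_neg, sg_add, sg_neg, ← sg_natAbs, ← sg_natAbs, Int.natAbs_natCast,
    Int.natAbs_natCast]
  simp

theorem term_eq (m a : ℕ) (h0 : 0 < a) (h : a < m) (N k : ℕ) (hk : k ≤ N + N) (g : ℤ⟦X⟧) :
    (X ^ m : ℤ⟦X⟧) ^ (k.choose 2) * g * (-(X ^ a)) ^ k * ((X ^ m) ^ N) ^ (N + N - k) =
    (-1) ^ N * (X ^ a) ^ N * (X ^ m) ^ (N.choose 2) * (X ^ m) ^ (N * N) *
      (monomial (ee m a ((k : ℤ) - N)) (sg ((k : ℤ) - N)) * g) := by
  rw [monomial_eq_C_mul_X_pow, sg_sub]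
  have hexp : m * k.choose 2 + a * k + m * N * (N + N - k) =
      a * N + m * N.choose 2 + m * (N * N) + ee m a ((k : ℤ) - N) := by
    zify [hk]
    rw [ee_cast m a h0 h]
    have e1 := choose_cast k
    have e2 := choose_cast N
    have e3 := half ((k : ℤ) - N)
    set t := ((k : ℤ) - N) * ((k : ℤ) - N - 1) / 2 with ht
    have : 2 * ((m : ℤ) * (k.choose 2 : ℕ) + a * k + m * N * (N + N - k)) =
        2 * (a * N + m * (N.choose 2 : ℕ) + m * (N * N) + (m * t + a * (k - N))) := by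
      linear_combination (m : ℤ) * e1 - (m : ℤ) * e2 - (m : ℤ) * e3
    linarith
  have e4 : (X : ℤ⟦X⟧) ^ (m * k.choose 2 + a * k + m * N * (N + N - k)) =
      X ^ (a * N + m * N.choose 2 + m * (N * N) + ee m a ((k : ℤ) - N)) := by rw [hexp]
  have e5 : ((-1 : ℤ⟦X⟧) ^ N) * (-1) ^ N = 1 := by
    rw [← mul_pow]; simp
  have e6 : (-(X ^ a : ℤ⟦X⟧)) ^ k = (-1) ^ k * X ^ (a * k) := by
    rw [neg_pow, ← pow_mul]
  rw [e6]
  simp only [← pow_mul] at *
  rw [pow_add, pow_add] at e4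
  rw [pow_add, pow_add, pow_add] at e4
  linear_combination (g * (-1) ^ k) * e4 -
    (g * (-1) ^ k * (X ^ (a * N) * X ^ (m * N.choose 2) * X ^ (m * (N * N)) *
      X ^ (ee m a ((k : ℤ) - N)))) * e5

theorem finite_id (m a : ℕ) (h0 : 0 < a) (h : a < m) (N : ℕ) :
    (∏ j ∈ range N, (1 - X ^ a * (X ^ m) ^ j : ℤ⟦X⟧)) *
      ∏ j ∈ range N, (1 - X ^ (m - a) * (X ^ m) ^ j : ℤ⟦X⟧) =
      ∑ k ∈ range (N + N + 1), monomial (ee m a ((k : ℤ) - N)) (sg ((k : ℤ) - N)) *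
        Gb (X ^ m : ℤ⟦X⟧) (N + N) k := by
  have hq : (X ^ m : ℤ⟦X⟧) = X ^ a * X ^ (m - a) := by rw [← pow_add]; congr 1; omega
  have h1 := prodeq (X ^ a : ℤ⟦X⟧) (X ^ (m - a)) (X ^ m) hq N
  have h2 := qbinom (X ^ m : ℤ⟦X⟧) (N + N) (-(X ^ a)) ((X ^ m) ^ N)
  rw [h1] at h2
  have h3 : ∑ k ∈ range (N + N + 1), (X ^ m : ℤ⟦X⟧) ^ (k.choose 2) *
      Gb (X ^ m : ℤ⟦X⟧) (N + N) k * (-(X ^ a)) ^ k * ((X ^ m) ^ N) ^ (N + N - k) =
      (-1) ^ N * (X ^ a) ^ N * (X ^ m) ^ (N.choose 2) * (X ^ m) ^ (N * N) *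
      ∑ k ∈ range (N + N + 1), monomial (ee m a ((k : ℤ) - N)) (sg ((k : ℤ) - N)) *
        Gb (X ^ m : ℤ⟦X⟧) (N + N) k := by
    rw [mul_sum]
    exact sum_congr rfl fun k hk => term_eq m a h0 h N k (by have := mem_range.1 hk; omega) _
  rw [h3] at h2
  refine mul_left_cancel₀ ?_ h2
  refine mul_ne_zero (mul_ne_zero (mul_ne_zero ?_ ?_) ?_) ?_
  · exact pow_ne_zero _ (by simp)
  all_goals exact pow_ne_zero _ (pow_ne_zero _ X_ne_zero)

theorem P_ne (m : ℕ) (hm : 0 < m) (n : ℕ) : P (X ^ m : ℤ⟦X⟧) n ≠ 0 := by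
  unfold P
  rw [prod_ne_zero_iff]
  intro j _ h
  have h1 := congrArg (constantCoeff (R := ℤ)) h
  rw [← pow_mul] at h1
  have h2 : m * (j + 1) ≠ 0 := by positivity
  simp [h2] at h1

theorem Gb_P (m : ℕ) (hm : 0 < m) (n k l : ℕ) (h : k + l = n) :
    Gb (X ^ m : ℤ⟦X⟧) n k * P (X ^ m) n = Rr (X ^ m) n k * Rr (X ^ m) n l := by
  have h1 := Gb_mul (X ^ m : ℤ⟦X⟧) n k l h
  have h2 := P_mul_Rr (X ^ m : ℤ⟦X⟧) n k (by omega)
  have h3 := P_mul_Rr (X ^ m : ℤ⟦X⟧) n l (by omega)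
  have hne : P (X ^ m : ℤ⟦X⟧) k * P (X ^ m : ℤ⟦X⟧) l ≠ 0 := mul_ne_zero (P_ne m hm k) (P_ne m hm l)
  refine mul_left_cancel₀ hne ?_
  linear_combination (P (X ^ m : ℤ⟦X⟧) n) * h1 - (P (X ^ m : ℤ⟦X⟧) l * Rr (X ^ m) n l) * h2 -
    (P (X ^ m : ℤ⟦X⟧) n) * h3

theorem term_dvd (m a : ℕ) (h0 : 0 < a) (h : a < m) (N k : ℕ) (hk : k ≤ N + N) :
    (X : ℤ⟦X⟧) ^ (N + 1) ∣ monomial (ee m a ((k : ℤ) - N)) (sg ((k : ℤ) - N)) *
      (Gb (X ^ m : ℤ⟦X⟧) (N + N) k * P (X ^ m) (N + N) - 1) := by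
  rw [Gb_P m (by omega) (N + N) k (N + N - k) (by omega), monomial_eq_C_mul_X_pow]
  have e : Rr (X ^ m : ℤ⟦X⟧) (N + N) k * Rr (X ^ m) (N + N) (N + N - k) - 1 =
      (Rr (X ^ m : ℤ⟦X⟧) (N + N) k - 1) * Rr (X ^ m) (N + N) (N + N - k) +
        (Rr (X ^ m) (N + N) (N + N - k) - 1) := by ring
  rw [e]
  obtain ⟨u, hu⟩ := Rr_dvd (X ^ m : ℤ⟦X⟧) (N + N) k
  obtain ⟨v, hv⟩ := Rr_dvd (X ^ m : ℤ⟦X⟧) (N + N) (N + N - k)
  rw [hu, hv]
  have b1 := bound1 m a h0 h N k hk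
  have b2 := bound2 m a h0 h N k hk
  have d1 : (X : ℤ⟦X⟧) ^ (N + 1) ∣ X ^ (ee m a ((k : ℤ) - N)) * (X ^ m) ^ (k + 1) := by
    rw [← pow_mul, ← pow_add]
    exact pow_dvd_pow _ b1
  have d2 : (X : ℤ⟦X⟧) ^ (N + 1) ∣ X ^ (ee m a ((k : ℤ) - N)) * (X ^ m) ^ (N + N - k + 1) := by
    rw [← pow_mul, ← pow_add]
    exact pow_dvd_pow _ b2
  have e2 : C (sg ((k : ℤ) - N)) * X ^ (ee m a ((k : ℤ) - N)) *
      ((X ^ m : ℤ⟦X⟧) ^ (k + 1) * u * Rr (X ^ m) (N + N) (N + N - k) +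
        (X ^ m) ^ (N + N - k + 1) * v) =
      (X ^ (ee m a ((k : ℤ) - N)) * (X ^ m) ^ (k + 1)) *
        (C (sg ((k : ℤ) - N)) * u * Rr (X ^ m) (N + N) (N + N - k)) +
      (X ^ (ee m a ((k : ℤ) - N)) * (X ^ m) ^ (N + N - k + 1)) *
        (C (sg ((k : ℤ) - N)) * v) := by ring
  rw [e2]
  exact dvd_add (d1.mul_right _) (d2.mul_right _)

theorem mult (m c : ℕ) (hm : 0 < m) :
    Multipliable (fun n : ℕ => (1 - X ^ (m * n + c) : ℤ⟦X⟧)) := by
  have h := WithPiTopology.multipliable_one_add_of_tendsto_order_atTop_nhds_top ℤ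
    (f := fun n : ℕ => -(X ^ (m * n + c) : ℤ⟦X⟧)) ?_
  · simpa [sub_eq_add_neg] using h
  · simp_rw [order_neg, order_X_pow]
    exact ENat.tendsto_natCast_nhds_top.comp
      (tendsto_atTop_mono (fun n => by
        have := Nat.le_mul_of_pos_left n hm
        simp only [id]
        omega) tendsto_id)

theorem Icc_eq (N : ℕ) : Finset.Icc (-(N : ℤ)) N =
    (range (N + N + 1)).image (fun k : ℕ => (k : ℤ) - N) := by
  ext i
  simp only [Finset.mem_Icc, Finset.mem_image, mem_range]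
  constructor
  · rintro ⟨h1, h2⟩
    exact ⟨(i + N).toNat, by omega, by omega⟩
  · rintro ⟨k, h1, rfl⟩
    omega

theorem main : Pool.Agent.Q107.PP.TaskJTP := by
  intro m a h0 h
  have hA := (mult m a (by omega)).hasProd
  have hB := (mult m (m - a) (by omega)).hasProd
  have hC := (mult m m (by omega)).hasProd
  have hprod := (hA.mul hB).mul hC
  have hsum := (summable_monomial sg (ee m a) (finite_of_bound _ (ee_bound m a h0 h))).hasSum
  have key : (∏' n : ℕ, (1 - X ^ (m * n + a) : ℤ⟦X⟧)) * (∏' n : ℕ, (1 - X ^ (m * n + (m - a)) : ℤ⟦X⟧))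
      * (∏' n : ℕ, (1 - X ^ (m * n + m) : ℤ⟦X⟧)) =
      ∑' i : ℤ, monomial ((m : ℤ) * (i * (i - 1) / 2) + a * i).toNat (sg i) := by
    have t1 : Tendsto (fun N : ℕ => N + N) atTop atTop :=
      tendsto_atTop_mono (fun n => by simp only [id]; omega) tendsto_id
    have hf := (hA.tendsto_prod_nat.mul hB.tendsto_prod_nat).mul (hC.tendsto_prod_nat.comp t1)
    have hg := hsum.comp tendsto_Icc_neg
    refine tendsto_of_dvd hf hg fun N => ?_
    simp only [Function.comp]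
    have e1 : ∏ j ∈ range N, (1 - X ^ (m * j + a) : ℤ⟦X⟧) =
        ∏ j ∈ range N, (1 - X ^ a * (X ^ m) ^ j : ℤ⟦X⟧) :=
      prod_congr rfl fun j _ => by rw [← pow_mul, ← pow_add, add_comm]
    have e2 : ∏ j ∈ range N, (1 - X ^ (m * j + (m - a)) : ℤ⟦X⟧) =
        ∏ j ∈ range N, (1 - X ^ (m - a) * (X ^ m) ^ j : ℤ⟦X⟧) :=
      prod_congr rfl fun j _ => by rw [← pow_mul, ← pow_add, add_comm]
    have e3 : ∏ j ∈ range (N + N), (1 - X ^ (m * j + m) : ℤ⟦X⟧) = P (X ^ m) (N + N) := by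
      unfold P
      exact prod_congr rfl fun j _ => by rw [← pow_mul]; congr 2
    rw [e1, e2, e3, finite_id m a h0 h N, Icc_eq, sum_image, sum_mul, ← sum_sub_distrib]
    · refine dvd_sum fun k hk => ?_
      have e4 := term_dvd m a h0 h N k (by have := mem_range.1 hk; omega)
      convert e4 using 1
      ring
    · intro x _ y _ hxy
      simp only at hxy
      omega
  rw [← key]
  convert hprod using 1
  funext n
  rw [Nat.add_sub_assoc (by omega)]

end Pool.Agent.PP107.TaskJTP
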