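import Pool.Agent.Q107.PP.Stmts

set_option autoImplicit false

namespace Pool.Agent.PP107.TaskPsi

open Finset PowerSeries Filter Topology
open scoped PowerSeries.WithPiTopology
open Pool.Agent.Q107.OD Pool.Agent.Q107.PP

section finite

variable {R : Type*} [CommRing R]

/-- `∏_{k < s} (1 - x^(2k+1))` -/
def O (x : R) (s : ℕ) : R := ∏ j ∈ range s, (1 - x ^ (2 * j + 1))

/-- `∏_{s < k ≤ n} (1 - x^(2k))` -/
def Ev (x : R) (s n : ℕ) : R := ∏ j ∈ Ico s n, (1 - x ^ (2 * (j + 1)))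

/-- the partial sum of `x^(j(j+1)/2)`, `j ≤ 2n` -/
def Sn (x : R) : ℕ → R
  | 0 => 1
  | n + 1 => Sn x n + x ^ ((2 * n + 1) * (n + 1)) + x ^ ((n + 1) * (2 * n + 3))

/-- the right side -/
def F (x : R) (n : ℕ) : R := ∑ s ∈ range (n + 1), x ^ (s * (2 * n + 1)) * Ev x s n * O x s

theorem O_succ (x : R) (n : ℕ) : O x (n + 1) = O x n * (1 - x ^ (2 * n + 1)) := by
  unfold O; rw [prod_range_succ]

theorem Ev_succ (x : R) {s n : ℕ} (h : s ≤ n) :
    Ev x s (n + 1) = Ev x s n * (1 - x ^ (2 * (n + 1))) := by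
  unfold Ev; rw [prod_Ico_succ_top h]

theorem Ev_self (x : R) (n : ℕ) : Ev x n n = 1 := by
  unfold Ev; simp

theorem Ev_bot (x : R) {s n : ℕ} (h : s < n) :
    Ev x s n = (1 - x ^ (2 * (s + 1))) * Ev x (s + 1) n := by
  unfold Ev; rw [prod_eq_prod_Ico_succ_bot h]

theorem tel (x : R) (n : ℕ) : ∀ m, m ≤ n →
    ∑ s ∈ range (m + 1), (x ^ (s * (2 * (n + 1) + 1)) * Ev x s (n + 1) * O x s -
      (1 - x ^ (2 * n + 1)) * (x ^ (s * (2 * n + 1)) * Ev x s n * O x s)) =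
    x ^ ((m + 1) * (2 * n + 1)) * Ev x m n * O x (m + 1) := by
  intro m
  induction m with
  | zero =>
    intro _
    rw [zero_add, sum_range_one, Ev_succ x (Nat.zero_le n), O_succ]
    simp only [zero_mul, pow_zero, one_mul, zero_add, mul_zero]
    have : O x 0 = 1 := by unfold O; simp
    rw [this]
    ring
  | succ m ih =>
    intro hm
    rw [sum_range_succ, ih (by omega), Ev_succ x hm, Ev_bot x (by omega : m < n), O_succ x (m + 1)]
    have e1 : x ^ ((m + 1) * (2 * (n + 1) + 1)) = x ^ ((m + 1) * (2 * n + 1)) *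
        x ^ (2 * (m + 1)) := by
      rw [← pow_add]; congr 1; ring
    have e2 : x ^ ((m + 1 + 1) * (2 * n + 1)) = x ^ ((m + 1) * (2 * n + 1)) *
        x ^ (2 * n + 1) := by
      rw [← pow_add]; congr 1; ring
    have e3 : x ^ (2 * (n + 1)) = x ^ (2 * n + 1) * x := by ring
    have e4 : x ^ (2 * (m + 1) + 1) = x ^ (2 * (m + 1)) * x := by
      rw [← pow_succ]
    rw [e1, e2, e3, e4]
    ring

theorem F_succ (x : R) (n : ℕ) : F x (n + 1) = (1 - x ^ (2 * n + 1)) * F x n +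
    (x ^ ((2 * n + 1) * (n + 1)) + x ^ ((n + 1) * (2 * n + 3))) * O x (n + 1) := by
  have h := tel x n n le_rfl
  rw [sum_sub_distrib, ← mul_sum, Ev_self] at h
  unfold F
  rw [sum_range_succ, Ev_self]
  have e1 : x ^ ((n + 1) * (2 * (n + 1) + 1)) = x ^ ((n + 1) * (2 * n + 3)) := by
    congr 1
  have e2 : x ^ ((n + 1) * (2 * n + 1)) = x ^ ((2 * n + 1) * (n + 1)) := by
    congr 1; ring
  rw [e1]
  rw [e2] at h
  linear_combination h

theorem main_finite (x : R) (n : ℕ) : Sn x n * O x n = F x n := by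
  induction n with
  | zero => simp [Sn, O, F, Ev]
  | succ n ih =>
    rw [F_succ, ← ih, Sn, O_succ]
    ring

theorem F_dvd (x : R) (n : ℕ) : x ^ (n + 1) ∣ F x n - Ev x 0 n := by
  unfold F
  rw [sum_range_succ']
  have e : x ^ (0 * (2 * n + 1)) * Ev x 0 n * O x 0 = Ev x 0 n := by
    unfold O; simp
  rw [e, add_sub_cancel_right]
  refine dvd_sum fun s _ => ?_
  have : x ^ (n + 1) ∣ x ^ ((s + 1) * (2 * n + 1)) := pow_dvd_pow _ (by nlinarith)
  exact (this.mul_right _).mul_right _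

theorem P_two (x : R) (n : ℕ) : P x (2 * n) = O x n * Ev x 0 n := by
  induction n with
  | zero => simp [P, O, Ev]
  | succ n ih =>
    rw [O_succ, Ev_succ x (Nat.zero_le n), show 2 * (n + 1) = 2 * n + 1 + 1 by ring, P_succ, P_succ,
      ih]
    ring

end finite

theorem tri_odd (n : ℕ) : tri (((2 * n + 1 : ℕ)) : ℤ) = (2 * n + 1) * (n + 1) := by
  have h := two_tri (((2 * n + 1 : ℕ)) : ℤ)
  have h2 : ((tri (((2 * n + 1 : ℕ)) : ℤ) : ℕ) : ℤ) = (((2 * n + 1) * (n + 1) : ℕ) : ℤ) := by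
    push_cast at h ⊢
    linarith
  exact_mod_cast h2

theorem tri_even (n : ℕ) : tri (((2 * n + 1 + 1 : ℕ)) : ℤ) = (n + 1) * (2 * n + 3) := by
  have h := two_tri (((2 * n + 1 + 1 : ℕ)) : ℤ)
  have h2 : ((tri (((2 * n + 1 + 1 : ℕ)) : ℤ) : ℕ) : ℤ) = (((n + 1) * (2 * n + 3) : ℕ) : ℤ) := by
    push_cast at h ⊢
    linarith
  exact_mod_cast h2

theorem Sn_eq (n : ℕ) : Sn (X : ℤ⟦X⟧) n =
    ∑ i ∈ range (2 * n + 1), (monomial (tri (i : ℤ)) 1 : ℤ⟦X⟧) := by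
  induction n with
  | zero =>
    have : tri ((0 : ℕ) : ℤ) = 0 := by simp [tri]
    rw [mul_zero, zero_add, sum_range_one, this, Sn]
    simp
  | succ n ih =>
    rw [show 2 * (n + 1) + 1 = 2 * n + 1 + 1 + 1 by ring, sum_range_succ, sum_range_succ, ← ih,
      tri_odd, tri_even, Sn, X_pow_eq, X_pow_eq]

theorem hasSum_psi : HasSum (fun n : ℕ => (monomial (tri (n : ℤ)) 1 : ℤ⟦X⟧)) psi := by
  refine (summable_monomial _ _ fun n => ?_).hasSum
  refine (Set.finite_Iic (n + 1)).subset ?_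
  intro i hi
  simp only [Set.mem_ofPred_eq] at hi
  rw [Set.mem_Iic]
  have := tri_bound (i : ℤ)
  rw [Int.natAbs_natCast] at this
  omega

theorem tendsto_S : Tendsto (fun n => Sn (X : ℤ⟦X⟧) n) atTop (𝓝 psi) := by
  have h := hasSum_psi.tendsto_sum_nat
  have h2 : Tendsto (fun n : ℕ => 2 * n + 1) atTop atTop := by
    refine tendsto_atTop_mono (fun n => ?_) tendsto_id
    show n ≤ 2 * n + 1
    omega
  refine (h.comp h2).congr fun n => ?_
  exact (Sn_eq n).symm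

theorem tendsto_Ev : Tendsto (fun n => Ev (X : ℤ⟦X⟧) 0 n) atTop (𝓝 E2) := by
  refine hasProd_E2.tendsto_prod_nat.congr fun n => ?_
  unfold Ev
  rw [← Finset.range_eq_Ico]

theorem main : Pool.Agent.Q107.PP.TaskPsi := by
  unfold Pool.Agent.Q107.PP.TaskPsi
  have h2 : Tendsto (fun n : ℕ => 2 * n) atTop atTop := by
    refine tendsto_atTop_mono (fun n => ?_) tendsto_id
    show n ≤ 2 * n
    omega
  have h1 : Tendsto (fun n => P (X : ℤ⟦X⟧) (2 * n) * Sn (X : ℤ⟦X⟧) n) atTop (𝓝 (E1 * psi)) :=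
    (tendsto_P.comp h2).mul tendsto_S
  have h3 : Tendsto (fun n => Ev (X : ℤ⟦X⟧) 0 n * Ev (X : ℤ⟦X⟧) 0 n) atTop (𝓝 (E2 * E2)) :=
    tendsto_Ev.mul tendsto_Ev
  rw [sq]
  refine tendsto_of_dvd h1 h3 fun n => ?_
  have h4 := F_dvd (X : ℤ⟦X⟧) n
  have h5 := main_finite (X : ℤ⟦X⟧) n
  have e : P (X : ℤ⟦X⟧) (2 * n) * Sn (X : ℤ⟦X⟧) n - Ev (X : ℤ⟦X⟧) 0 n * Ev (X : ℤ⟦X⟧) 0 n =
      (F (X : ℤ⟦X⟧) n - Ev (X : ℤ⟦X⟧) 0 n) * Ev (X : ℤ⟦X⟧) 0 n := by
    rw [P_two, ← h5]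
    ring
  rw [e]
  exact h4.mul_right _

end Pool.Agent.PP107.TaskPsi
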