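import Pool.Agent.PP107.TaskF3a

/-!
# TaskPsiZ
-/

set_option autoImplicit false

namespace Pool.Agent.PP107.TaskPsiZ

theorem main : Pool.Agent.Q107.PP.TaskPsiZ := Pool.Agent.PP107.TaskF3a.hasSum_psiZ

end Pool.Agent.PP107.TaskPsiZ
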